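import Mathlib

/-!
The trace pairing (Cassels height) on a cyclotomic field and its behaviour on roots of unity.
-/

set_option autoImplicit false

open Finset ComplexConjugate

namespace Pool.Agent.Lib.MP_4dc1c3_nt

variable {K : Type} [Field K] [NumberField K] (ι : K →+* ℂ)

/-- The integer span of the roots of unity of order dividing `M`. -/
def O (K : Type) [Field K] (M : ℕ) : Submodule ℤ K := Submodule.span ℤ {x : K | x ^ M = 1}

/-- The unnormalised hermitian trace pairing. -/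
noncomputable def pr (x y : K) : ℂ := ∑ σ : Gal(K/ℚ), ι (σ x) * conj (ι (σ y))

/-- The unnormalised Cassels height. -/
noncomputable def ht (x : K) : ℝ := ∑ σ : Gal(K/ℚ), ‖ι (σ x)‖ ^ 2

lemma pr_self (x : K) : pr ι x x = (ht ι x : ℂ) := by
  simp [pr, ht, Complex.mul_conj']

lemma ht_nonneg (x : K) : 0 ≤ ht ι x := by
  unfold ht; positivity

@[simp] lemma ht_zero : ht ι (0 : K) = 0 := by simp [ht]

lemma pr_sum_left {α : Type} (s : Finset α) (f : α → K) (y : K) :
    pr ι (∑ a ∈ s, f a) y = ∑ a ∈ s, pr ι (f a) y := by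
  simp only [pr, map_sum, Finset.sum_mul]
  rw [Finset.sum_comm]

lemma pr_sum_right {α : Type} (s : Finset α) (f : α → K) (x : K) :
    pr ι x (∑ a ∈ s, f a) = ∑ a ∈ s, pr ι x (f a) := by
  simp only [pr, map_sum, Finset.mul_sum]
  rw [Finset.sum_comm]

lemma pr_neg_left (x y : K) : pr ι (-x) y = - pr ι x y := by
  simp [pr]

lemma pr_zero_left (y : K) : pr ι 0 y = 0 := by
  simp [pr]

lemma pr_zero_right (y : K) : pr ι y 0 = 0 := by
  simp [pr]

lemma pr_gal (τ : Gal(K/ℚ)) (x y : K) : pr ι (τ x) (τ y) = pr ι x y := by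
  unfold pr
  exact Fintype.sum_equiv (Equiv.mulRight τ) _ _ (fun σ => by simp)

lemma norm_root {u : K} {k : ℕ} (hk : k ≠ 0) (hu : u ^ k = 1) (σ : Gal(K/ℚ)) :
    ‖ι (σ u)‖ = 1 := by
  have : (ι (σ u)) ^ k = 1 := by rw [← map_pow, ← map_pow, hu, map_one, map_one]
  exact Complex.norm_eq_one_of_pow_eq_one this hk

lemma mul_conj_root {u : K} {k : ℕ} (hk : k ≠ 0) (hu : u ^ k = 1) (σ : Gal(K/ℚ)) :
    ι (σ u) * conj (ι (σ u)) = 1 := by
  rw [Complex.mul_conj', norm_root ι hk hu]; simp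

lemma pr_root {u : K} {k : ℕ} (hk : k ≠ 0) (hu : u ^ k = 1) (x y : K) :
    pr ι (x * u) (y * u) = pr ι x y := by
  unfold pr
  refine Finset.sum_congr rfl (fun σ _ => ?_)
  simp only [map_mul]
  have := mul_conj_root ι hk hu σ
  linear_combination (ι (σ x) * conj (ι (σ y))) * this

lemma ht_root {u : K} {k : ℕ} (hk : k ≠ 0) (hu : u ^ k = 1) (x : K) :
    ht ι (x * u) = ht ι x := by
  have := pr_root ι hk hu x x
  rw [pr_self, pr_self] at this
  exact_mod_cast this

lemma norm_pr_le (x y : K) : ‖pr ι x y‖ ≤ (ht ι x + ht ι y) / 2 := by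
  unfold pr ht
  refine (norm_sum_le _ _).trans ?_
  rw [← Finset.sum_add_distrib, Finset.sum_div]
  refine Finset.sum_le_sum (fun σ _ => ?_)
  rw [norm_mul, Complex.norm_conj]
  nlinarith [sq_nonneg (‖ι (σ x)‖ - ‖ι (σ y)‖)]

lemma ht_sum {α : Type} (s : Finset α) (f : α → K) :
    ht ι (∑ a ∈ s, f a) = ∑ a ∈ s, ∑ b ∈ s, (pr ι (f a) (f b)).re := by
  have h := pr_self ι (∑ a ∈ s, f a)
  rw [pr_sum_left] at h
  simp_rw [pr_sum_right] at h
  have := congrArg Complex.re h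
  simp only [Complex.re_sum, Complex.ofReal_re] at this
  exact this.symm

lemma ht_sum_le {α : Type} (s : Finset α) (f : α → K) :
    ht ι (∑ a ∈ s, f a) ≤ s.card * ∑ a ∈ s, ht ι (f a) := by
  rw [ht_sum]
  calc ∑ a ∈ s, ∑ b ∈ s, (pr ι (f a) (f b)).re
      ≤ ∑ a ∈ s, ∑ b ∈ s, (ht ι (f a) + ht ι (f b)) / 2 := by
        refine Finset.sum_le_sum (fun a _ => Finset.sum_le_sum (fun b _ => ?_))
        exact (Complex.re_le_norm _).trans (norm_pr_le ι _ _)
    _ = s.card * ∑ a ∈ s, ht ι (f a) := by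
        simp only [add_div, Finset.sum_add_distrib, Finset.sum_const, nsmul_eq_mul,
          ← Finset.mul_sum, ← Finset.sum_div]
        ring

lemma ht_ge [IsGalois ℚ K] {x : K} (hx : IsIntegral ℤ x) (h0 : x ≠ 0) :
    (Fintype.card Gal(K/ℚ) : ℝ) ≤ ht ι x := by
  have hN := Algebra.norm_eq_prod_automorphisms ℚ x
  have hint : IsIntegral ℤ (Algebra.norm ℚ x) := Algebra.isIntegral_norm ℚ hx
  obtain ⟨z, hz⟩ := IsIntegrallyClosed.isIntegral_iff.mp hint
  have hz0 : z ≠ 0 := by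
    rintro rfl
    rw [map_zero] at hz
    exact h0 (Algebra.norm_eq_zero_iff.mp hz.symm)
  have h1 : (1 : ℝ) ≤ ∏ σ : Gal(K/ℚ), ‖ι (σ x)‖ := by
    rw [← norm_prod, ← map_prod, ← hN, ← hz]
    simp only [algebraMap_int_eq, eq_intCast, map_intCast, Complex.norm_intCast]
    exact_mod_cast Int.one_le_abs hz0
  have hpos : ∀ σ : Gal(K/ℚ), 0 < ‖ι (σ x)‖ := fun σ => by
    simp [h0]
  have h2 : 0 ≤ ∑ σ : Gal(K/ℚ), Real.log (‖ι (σ x)‖ ^ 2) := by
    simp only [Real.log_pow]
    rw [← Finset.mul_sum, ← Real.log_prod (fun σ _ => (hpos σ).ne')]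
    have := Real.log_nonneg h1
    positivity
  have h3 : ∑ σ : Gal(K/ℚ), Real.log (‖ι (σ x)‖ ^ 2) ≤ ∑ σ : Gal(K/ℚ), (‖ι (σ x)‖ ^ 2 - 1) :=
    Finset.sum_le_sum (fun σ _ => Real.log_le_sub_one_of_pos (by have := hpos σ; positivity))
  rw [Finset.sum_sub_distrib] at h3
  simp only [Finset.sum_const, Finset.card_univ, nsmul_eq_mul, mul_one] at h3
  unfold ht
  linarith

omit [NumberField K] in
lemma O_mono {M M' : ℕ} (h : M ∣ M') : O K M ≤ O K M' := by
  refine Submodule.span_mono (fun x hx => ?_)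
  obtain ⟨c, rfl⟩ := h
  simp only [Set.mem_ofPred_eq] at hx ⊢
  rw [pow_mul, hx, one_pow]

omit [NumberField K] in
lemma O_mul_root {M : ℕ} {x u : K} (hx : x ∈ O K M) (hu : u ^ M = 1) : x * u ∈ O K M := by
  induction hx using Submodule.span_induction with
  | mem y hy =>
    exact Submodule.subset_span (by simp only [Set.mem_ofPred_eq] at hy ⊢; rw [mul_pow, hy, hu, one_mul])
  | zero => simp
  | add y z _ _ hy hz => rw [add_mul]; exact Submodule.add_mem _ hy hz
  | smul a y _ hy => rw [smul_mul_assoc]; exact Submodule.smul_mem _ _ hy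

omit [NumberField K] in
lemma O_integral {M : ℕ} (hM : M ≠ 0) {x : K} (hx : x ∈ O K M) : IsIntegral ℤ x := by
  induction hx using Submodule.span_induction with
  | mem y hy =>
    exact IsIntegral.of_pow (Nat.pos_of_ne_zero hM) (by rw [hy]; exact isIntegral_one)
  | zero => exact isIntegral_zero
  | add y z _ _ hy hz => exact hy.add hz
  | smul a y _ hy => exact hy.smul a

lemma fix_O {M : ℕ} (τ : Gal(K/ℚ)) (hτ : ∀ x : K, x ^ M = 1 → τ x = x) {x : K} (hx : x ∈ O K M) :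
    τ x = x := by
  induction hx using Submodule.span_induction with
  | mem y hy => exact hτ y hy
  | zero => simp
  | add y z _ _ hy hz => rw [map_add, hy, hz]
  | smul a y _ hy => rw [map_zsmul, hy]

variable {M₀ : ℕ} [NeZero M₀] [IsCyclotomicExtension {M₀} ℚ K]

lemma exists_gal {M a : ℕ} (hM : M ∣ M₀) (ha : a.Coprime M) :
    ∃ τ : Gal(K/ℚ), ∀ x : K, x ^ M = 1 → τ x = x ^ a := by
  have hM0 : M ≠ 0 := by rintro rfl; exact NeZero.ne M₀ (Nat.eq_zero_of_zero_dvd hM)
  have : NeZero M := ⟨hM0⟩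
  obtain ⟨u, hu⟩ := ZMod.unitsMap_surjective hM (ZMod.unitOfCoprime a ha)
  refine ⟨(IsCyclotomicExtension.Rat.galEquivZMod M₀ K).symm u, fun x hx => ?_⟩
  have hx0 : x ^ M₀ = 1 := by
    obtain ⟨c, rfl⟩ := hM
    rw [pow_mul, hx, one_pow]
  rw [IsCyclotomicExtension.Rat.galEquivZMod_apply_of_pow_eq M₀ K _ hx0, MulEquiv.apply_symm_apply]
  have h1 : ((u.val.val : ℕ) : ZMod M) = (a : ZMod M) := by
    have := congrArg Units.val hu
    simp only [ZMod.unitsMap_val, ZMod.coe_unitOfCoprime] at this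
    rw [ZMod.natCast_val, this]
  rw [ZMod.natCast_eq_natCast_iff'] at h1
  rw [pow_eq_pow_mod _ hx, h1, ← pow_eq_pow_mod _ hx]

include M₀ in
lemma pr_caseI {p M' : ℕ} (hp : p.Prime) (hpM : p ∣ M') (hM : p * M' ∣ M₀) {η A B : K}
    (hη : η ^ (p * M') = 1) (hη' : η ^ M' ≠ 1) (hA : A ∈ O K M') (hB : B ∈ O K M') :
    pr ι (A * η) B = 0 := by
  have hω : (η ^ M') ^ p = 1 := by rw [← pow_mul, mul_comm, hη]
  have hk : ∀ k : ℕ, pr ι (A * η) B = pr ι (A * η * (η ^ M') ^ k) B := by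
    intro k
    have hc : (1 + M' * k).Coprime (p * M') := by
      have h1 : (1 + M' * k).Coprime M' := by simp
      exact Nat.Coprime.mul_right (h1.coprime_dvd_right hpM) h1
    obtain ⟨τ, hτ⟩ := exists_gal (K := K) hM hc
    have hfix : ∀ x : K, x ^ M' = 1 → τ x = x := by
      intro x hx
      rw [hτ x (by rw [mul_comm, pow_mul, hx, one_pow]), pow_add, pow_mul, hx]; simp
    rw [← pr_gal ι τ, map_mul, fix_O τ hfix hA, fix_O τ hfix hB, hτ η hη, pow_add, pow_mul]
    simp [mul_assoc]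
  have hs : ∑ k ∈ range p, (η ^ M') ^ k = 0 := by
    have := mul_geom_sum (η ^ M') p
    rw [hω, sub_self] at this
    exact (mul_eq_zero.mp this).resolve_left (sub_ne_zero.mpr hη')
  have h1 : ∑ k ∈ range p, pr ι (A * η) B = ∑ k ∈ range p, pr ι (A * η * (η ^ M') ^ k) B :=
    Finset.sum_congr rfl (fun k _ => hk k)
  rw [Finset.sum_const, ← pr_sum_left, ← Finset.mul_sum, hs, mul_zero, pr_zero_left] at h1
  simp only [card_range, nsmul_eq_mul, mul_eq_zero, Nat.cast_eq_zero] at h1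
  exact h1.resolve_left hp.ne_zero

include M₀ in
lemma pr_caseII {p M' : ℕ} (hp : p.Prime) (hpM : ¬ p ∣ M') (hM : p * M' ∣ M₀) {η A B : K}
    (hη : η ^ p = 1) (hη' : η ≠ 1) (hA : A ∈ O K M') (hB : B ∈ O K M') :
    ((p : ℂ) - 1) * pr ι (A * η) B = - pr ι A B := by
  have hcop : p.Coprime M' := (Nat.Prime.coprime_iff_not_dvd hp).mpr hpM
  have hk : ∀ k ∈ range (p - 1), pr ι (A * η) B = pr ι (A * η ^ (k + 1)) B := by
    intro k hk
    rw [Finset.mem_range] at hk
    obtain ⟨a, ha1, ha2⟩ := Nat.chineseRemainder hcop (k + 1) 1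
    have hc : a.Coprime (p * M') := by
      refine Nat.Coprime.mul_right ?_ ?_
      · rw [Nat.Coprime, ha1.gcd_eq]
        exact (Nat.coprime_of_lt_prime (by omega) (by omega) hp).symm
      · rw [Nat.Coprime, ha2.gcd_eq]; simp
    obtain ⟨τ, hτ⟩ := exists_gal (K := K) hM hc
    have hfix : ∀ x : K, x ^ M' = 1 → τ x = x := by
      intro x hx
      rw [hτ x (by rw [mul_comm, pow_mul, hx, one_pow]), pow_eq_pow_mod _ hx, ha2,
        ← pow_eq_pow_mod _ hx, pow_one]
    rw [← pr_gal ι τ, map_mul, fix_O τ hfix hA, fix_O τ hfix hB,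
      hτ η (by rw [pow_mul, hη, one_pow]), pow_eq_pow_mod _ hη, ha1, ← pow_eq_pow_mod _ hη]
  have hs : ∑ k ∈ range (p - 1), η ^ (k + 1) = -1 := by
    have := mul_geom_sum η p
    rw [hη, sub_self] at this
    have h2 := (mul_eq_zero.mp this).resolve_left (sub_ne_zero.mpr hη')
    have h3 : p = (p - 1) + 1 := by have := hp.pos; omega
    rw [h3, Finset.sum_range_succ'] at h2
    linear_combination h2
  have h1 : ∑ k ∈ range (p - 1), pr ι (A * η) B =
      ∑ k ∈ range (p - 1), pr ι (A * η ^ (k + 1)) B := Finset.sum_congr rfl hk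
  rw [Finset.sum_const, ← pr_sum_left, ← Finset.mul_sum, hs, mul_neg, mul_one, pr_neg_left] at h1
  simp only [card_range, nsmul_eq_mul] at h1
  rw [Nat.cast_sub hp.one_le] at h1
  simpa using h1

omit [NumberField K] in
lemma split_root {p M' : ℕ} (hcop : p.Coprime M') {η : K} (hη : η ^ (p * M') = 1) :
    ∃ a b : K, a ^ p = 1 ∧ b ^ M' = 1 ∧ η = a * b := by
  obtain ⟨u, hu1, hu2⟩ := Nat.chineseRemainder hcop 1 0
  obtain ⟨v, hv1, hv2⟩ := Nat.chineseRemainder hcop 0 1
  obtain ⟨u', rfl⟩ := (Nat.modEq_zero_iff_dvd).mp hu2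
  obtain ⟨v', rfl⟩ := (Nat.modEq_zero_iff_dvd).mp hv1
  refine ⟨η ^ (M' * u'), η ^ (p * v'), ?_, ?_, ?_⟩
  · rw [← pow_mul, show M' * u' * p = p * M' * u' by ring, pow_mul, hη, one_pow]
  · rw [← pow_mul, show p * v' * M' = p * M' * v' by ring, pow_mul, hη, one_pow]
  · have : M' * u' + p * v' ≡ 1 [MOD p * M'] := by
      rw [← Nat.modEq_and_modEq_iff_modEq_mul hcop]
      exact ⟨by simpa using hu1.add hv1, by simpa using hu2.add hv2⟩
    rw [← pow_add, pow_eq_pow_mod _ hη, this, ← pow_eq_pow_mod _ hη, pow_one]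

include M₀ in
lemma pr_small {P Q : ℕ} (hP : 0 < P) (hQ : ∀ p : ℕ, p.Prime → p ≤ P → p ∣ Q)
    {A B : K} (hA : A ∈ O K Q) (hB : B ∈ O K Q) (t : ℕ) :
    Q * t ∣ M₀ → ∀ η : K, η ^ (Q * t) = 1 → η ^ Q ≠ 1 →
      ‖pr ι (A * η) B‖ ≤ (ht ι A + ht ι B) / (2 * P) := by
  have hPr : (0 : ℝ) < P := by exact_mod_cast hP
  induction t using induction_on_primes with
  | zero =>
    intro h; rw [mul_zero] at h
    exact absurd (Nat.eq_zero_of_zero_dvd h) (NeZero.ne M₀)
  | one => intro _ η h1 h2; rw [mul_one] at h1; exact absurd h1 h2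
  | prime_mul p a hp ih =>
    intro hd η h1 h2
    have e : Q * (p * a) = p * (Q * a) := by ring
    rw [e] at hd h1
    by_cases h3 : η ^ (Q * a) = 1
    · exact ih (Dvd.dvd.trans (Dvd.intro_left p rfl) hd) η h3 h2
    have hA' : A ∈ O K (Q * a) := O_mono (Dvd.intro a rfl) hA
    have hB' : B ∈ O K (Q * a) := O_mono (Dvd.intro a rfl) hB
    by_cases hpM : p ∣ Q * a
    · rw [pr_caseI ι hp hpM hd h1 h3 hA' hB', norm_zero]
      have := ht_nonneg ι A
      have := ht_nonneg ι B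
      positivity
    · have hcop : p.Coprime (Q * a) := (Nat.Prime.coprime_iff_not_dvd hp).mpr hpM
      obtain ⟨u, v, hu, hv, rfl⟩ := split_root hcop h1
      have hu1 : u ≠ 1 := by
        rintro rfl
        exact h3 (by rw [one_mul, hv])
      have hQa : Q * a ≠ 0 := by
        intro h0; exact hpM (by rw [h0]; exact dvd_zero p)
      have h4 := pr_caseII ι hp hpM hd hu hu1 (O_mul_root hA' hv) hB'
      have hPp : P + 1 ≤ p := by
        by_contra hc
        exact hpM (Dvd.dvd.mul_right (hQ p hp (by omega)) a)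
      have hPp' : (P : ℝ) + 1 ≤ p := by exact_mod_cast hPp
      have h5 := congrArg norm h4
      rw [norm_mul, norm_neg] at h5
      have h6 : ‖(p : ℂ) - 1‖ = (p : ℝ) - 1 := by
        have : (p : ℂ) - 1 = (((p : ℝ) - 1 : ℝ) : ℂ) := by push_cast; ring
        rw [this, Complex.norm_real, Real.norm_eq_abs, abs_of_nonneg (by linarith)]
      have h7 := norm_pr_le ι (A * v) B
      rw [ht_root ι hQa hv] at h7
      rw [show A * (u * v) = A * v * u by ring, le_div_iff₀ (by positivity)]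
      rw [h6] at h5
      have h8 := norm_nonneg (pr ι (A * v * u) B)
      nlinarith

end Pool.Agent.Lib.MP_4dc1c3_nt
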