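import Mathlib
import Pool.Agent.Lib.MP_4dc1c3_nt.Height

/-!
Cyclotomic integers of small height are supported on few cosets of the group of `Q`-th roots
of unity, and few such cosets are linearly independent.
-/

set_option autoImplicit false

open Finset ComplexConjugate

namespace Pool.Agent.Lib.MP_4dc1c3_nt

variable {K : Type} [Field K] [NumberField K] (ι : K →+* ℂ)

/-- Integer span of the `M₀`-th roots of unity whose `Q`-th power lies in `V`. -/
def WS (K : Type) [Field K] (M₀ Q : ℕ) (V : Set K) : Submodule ℤ K :=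
  Submodule.span ℤ {x : K | x ^ M₀ = 1 ∧ x ^ Q ∈ V}

variable {M₀ : ℕ} [NeZero M₀] {P Q : ℕ}

omit [NumberField K] [NeZero M₀] in
lemma WS_mono {V V' : Set K} (h : V ⊆ V') : WS K M₀ Q V ≤ WS K M₀ Q V' :=
  Submodule.span_mono (fun _ hx => ⟨hx.1, h hx.2⟩)

omit [NumberField K] [NeZero M₀] in
lemma WS_le_O (V : Set K) : WS K M₀ Q V ≤ O K M₀ :=
  Submodule.span_mono (fun _ hx => hx.1)

omit [NumberField K] in
lemma root_ne_zero {x : K} (hx : x ^ M₀ = 1) : x ≠ 0 := by
  rintro rfl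
  rw [zero_pow (NeZero.ne M₀)] at hx
  exact zero_ne_one hx

omit [NumberField K] in
lemma W_cases {v X : K} (hX : X ∈ WS K M₀ Q {v}) :
    X = 0 ∨ ∃ ρ A : K, ρ ^ M₀ = 1 ∧ ρ ^ Q = v ∧ A ∈ O K Q ∧ X = A * ρ := by
  by_cases h : ∃ ρ : K, ρ ^ M₀ = 1 ∧ ρ ^ Q = v
  · right
    obtain ⟨ρ, h1, h2⟩ := h
    have hρ : ρ ≠ 0 := root_ne_zero h1
    have : ∃ A : K, A ∈ O K Q ∧ X = A * ρ := by
      induction hX using Submodule.span_induction with
      | mem y hy =>
        refine ⟨y * ρ⁻¹, Submodule.subset_span ?_, by field_simp⟩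
        have h3 : y ^ Q = v := hy.2
        simp only [Set.mem_ofPred_eq]
        rw [mul_pow, inv_pow, h3, ← h2, mul_inv_cancel₀ (pow_ne_zero _ hρ)]
      | zero => exact ⟨0, Submodule.zero_mem _, by simp⟩
      | add y z _ _ hy hz =>
        obtain ⟨A, hA, rfl⟩ := hy
        obtain ⟨B, hB, rfl⟩ := hz
        exact ⟨A + B, Submodule.add_mem _ hA hB, by ring⟩
      | smul a y _ hy =>
        obtain ⟨A, hA, rfl⟩ := hy
        exact ⟨a • A, Submodule.smul_mem _ _ hA, by rw [smul_mul_assoc]⟩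
    obtain ⟨A, hA, rfl⟩ := this
    exact ⟨ρ, A, h1, h2, hA, rfl⟩
  · left
    have : {x : K | x ^ M₀ = 1 ∧ x ^ Q ∈ ({v} : Set K)} = ∅ := by
      ext x
      simp only [Set.mem_singleton_iff, Set.mem_ofPred_eq, Set.mem_empty_iff_false, iff_false]
      exact fun hx => h ⟨x, hx⟩
    rw [WS, this, Submodule.span_empty] at hX
    simpa using hX

omit [NumberField K] [NeZero M₀] in
lemma WS_decomp {α : Type} (s : Finset α) (g : α → K) {β : K}
    (hβ : β ∈ WS K M₀ Q (g '' (s : Set α))) :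
    ∃ X : α → K, (∀ a, X a ∈ WS K M₀ Q {g a}) ∧ β = ∑ a ∈ s, X a := by
  classical
  induction hβ using Submodule.span_induction with
  | mem y hy =>
    obtain ⟨h1, a, ha, h2⟩ := hy
    refine ⟨Pi.single a y, fun b => ?_, ?_⟩
    · by_cases hb : b = a
      · subst hb
        rw [Pi.single_eq_same]
        exact Submodule.subset_span ⟨h1, h2.symm⟩
      · rw [Pi.single_eq_of_ne hb]; exact Submodule.zero_mem _
    · rw [Finset.sum_pi_single']; simp at ha; simp [ha]
  | zero => exact ⟨0, fun _ => Submodule.zero_mem _, by simp⟩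
  | add y z _ _ hy hz =>
    obtain ⟨X, hX, rfl⟩ := hy
    obtain ⟨Y, hY, rfl⟩ := hz
    exact ⟨X + Y, fun a => Submodule.add_mem _ (hX a) (hY a), by simp [Finset.sum_add_distrib]⟩
  | smul c y _ hy =>
    obtain ⟨X, hX, rfl⟩ := hy
    exact ⟨c • X, fun a => Submodule.smul_mem _ _ (hX a), by simp [Finset.mul_sum]⟩

omit [NumberField K] [NeZero M₀] in
lemma WS_mul_root {V : Set K} {β u : K} (hβ : β ∈ WS K M₀ Q V) (hu : u ^ M₀ = 1) :
    β * u ∈ WS K M₀ Q ((fun v => v * u ^ Q) '' V) := by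
  induction hβ using Submodule.span_induction with
  | mem y hy =>
    refine Submodule.subset_span ⟨by rw [mul_pow, hy.1, hu, one_mul], y ^ Q, hy.2, ?_⟩
    simp [mul_pow]
  | zero => simp
  | add y z _ _ hy hz => rw [add_mul]; exact Submodule.add_mem _ hy hz
  | smul a y _ hy => rw [smul_mul_assoc]; exact Submodule.smul_mem _ _ hy

omit [NumberField K] [NeZero M₀] in
lemma W_mul {v w X Y : K} (hX : X ∈ WS K M₀ Q {v}) (hY : Y ∈ WS K M₀ Q {w}) :
    X * Y ∈ WS K M₀ Q {v * w} := by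
  induction hY using Submodule.span_induction with
  | mem y hy =>
    have := WS_mul_root hX hy.1
    have h2 : y ^ Q = w := hy.2
    rwa [Set.image_singleton, h2] at this
  | zero => simp
  | add y z _ _ hy hz => rw [mul_add]; exact Submodule.add_mem _ hy hz
  | smul a y _ hy => rw [mul_smul_comm]; exact Submodule.smul_mem _ _ hy

lemma W_conj {v X : K} (hX : X ∈ WS K M₀ Q {v}) :
    ∃ Y ∈ WS K M₀ Q {v⁻¹}, ι Y = conj (ι X) := by
  induction hX using Submodule.span_induction with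
  | mem y hy =>
    have h2 : y ^ Q = v := hy.2
    refine ⟨y⁻¹, Submodule.subset_span ⟨by rw [inv_pow, hy.1, inv_one], by
      rw [inv_pow, h2]; rfl⟩, ?_⟩
    have h3 := mul_conj_root ι (NeZero.ne M₀) hy.1 1
    simp only [AlgEquiv.one_apply] at h3
    rw [map_inv₀]
    exact (eq_inv_of_mul_eq_one_right h3).symm
  | zero => exact ⟨0, Submodule.zero_mem _, by simp⟩
  | add y z _ _ hy hz =>
    obtain ⟨A, hA, h1⟩ := hy
    obtain ⟨B, hB, h2⟩ := hz
    exact ⟨A + B, Submodule.add_mem _ hA hB, by simp [h1, h2]⟩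
  | smul a y _ hy =>
    obtain ⟨A, hA, h1⟩ := hy
    exact ⟨a • A, Submodule.smul_mem _ _ hA, by simp [h1]⟩

lemma real_conj {X : K} (hX : X ∈ O K M₀) (hr : conj (ι X) = ι X) (σ : Gal(K/ℚ)) :
    conj (ι (σ X)) = ι (σ X) := by
  have : ∃ Y : K, ∀ τ : Gal(K/ℚ), ι (τ Y) = conj (ι (τ X)) := by
    clear hr
    induction hX using Submodule.span_induction with
    | mem y hy =>
      refine ⟨y⁻¹, fun τ => ?_⟩
      have h3 := mul_conj_root ι (NeZero.ne M₀) hy τ
      rw [map_inv₀, map_inv₀]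
      exact (eq_inv_of_mul_eq_one_right h3).symm
    | zero => exact ⟨0, by simp⟩
    | add y z _ _ hy hz =>
      obtain ⟨A, h1⟩ := hy
      obtain ⟨B, h2⟩ := hz
      exact ⟨A + B, fun τ => by simp [h1, h2]⟩
    | smul a y _ hy =>
      obtain ⟨A, h1⟩ := hy
      exact ⟨a • A, fun τ => by simp [h1]⟩
  obtain ⟨Y, hY⟩ := this
  have h1 := hY 1
  simp only [AlgEquiv.one_apply] at h1
  have : Y = X := ι.injective (h1.trans hr)
  rw [← hY σ, this]

lemma ht_sub (x y : K) : ht ι (x - y) = ht ι x + ht ι y - 2 * (pr ι x y).re := by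
  unfold ht pr
  rw [Complex.re_sum, Finset.mul_sum, ← Finset.sum_add_distrib, ← Finset.sum_sub_distrib]
  refine Finset.sum_congr rfl (fun σ _ => ?_)
  simp only [map_sub, Complex.sq_norm, Complex.normSq_sub]

variable [IsCyclotomicExtension {M₀} ℚ K]

lemma pr_W (hP : 0 < P) (hQ : ∀ p : ℕ, p.Prime → p ≤ P → p ∣ Q) (hQM : Q ∣ M₀)
    {v w X Y : K} (hvw : v ≠ w) (hX : X ∈ WS K M₀ Q {v}) (hY : Y ∈ WS K M₀ Q {w}) :
    ‖pr ι X Y‖ ≤ (ht ι X + ht ι Y) / (2 * P) := by
  have h0 : 0 ≤ (ht ι X + ht ι Y) / (2 * P) := by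
    have := ht_nonneg ι X
    have := ht_nonneg ι Y
    positivity
  rcases W_cases hX with rfl | ⟨ρ, A, h1, h2, hA, rfl⟩
  · rwa [pr_zero_left, norm_zero]
  rcases W_cases hY with rfl | ⟨ρ', B, h1', h2', hB, rfl⟩
  · rwa [pr_zero_right, norm_zero]
  have hρ' : ρ' ≠ 0 := root_ne_zero h1'
  have e : A * ρ = A * (ρ * ρ'⁻¹) * ρ' := by field_simp
  rw [ht_root ι (NeZero.ne M₀) h1, ht_root ι (NeZero.ne M₀) h1', e,
    pr_root ι (NeZero.ne M₀) h1']
  obtain ⟨t, ht⟩ := hQM
  refine pr_small (M₀ := M₀) ι hP hQ hA hB t (by rw [ht]) _ ?_ ?_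
  · rw [← ht, mul_pow, inv_pow, h1, h1']; simp
  · rw [mul_pow, inv_pow, h2, h2']
    intro h
    have hw : w ≠ 0 := by rw [← h2']; exact pow_ne_zero _ hρ'
    apply hvw
    field_simp at h
    exact h

lemma ht_sum_W (hP : 0 < P) (hQ : ∀ p : ℕ, p.Prime → p ≤ P → p ∣ Q) (hQM : Q ∣ M₀)
    (V : Finset K) (hV : 2 * V.card ≤ P) (X : K → K) (hX : ∀ v, X v ∈ WS K M₀ Q {v}) :
    ∑ v ∈ V, ht ι (X v) ≤ 2 * ht ι (∑ v ∈ V, X v) := by
  classical
  have hPr : (0 : ℝ) < P := by exact_mod_cast hP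
  have hV' : 2 * (V.card : ℝ) ≤ P := by exact_mod_cast hV
  rw [ht_sum]
  have h1 : ∑ a ∈ V, ∑ b ∈ V, ((if a = b then ht ι (X a) else 0) -
      (ht ι (X a) + ht ι (X b)) / (2 * P)) ≤ ∑ a ∈ V, ∑ b ∈ V, (pr ι (X a) (X b)).re := by
    refine Finset.sum_le_sum (fun a _ => Finset.sum_le_sum (fun b _ => ?_))
    by_cases hab : a = b
    · subst hab
      rw [if_pos rfl, pr_self, Complex.ofReal_re]
      have := ht_nonneg ι (X a)
      have : 0 ≤ (ht ι (X a) + ht ι (X a)) / (2 * P) := by positivity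
      linarith
    · rw [if_neg hab]
      have h2 := pr_W ι hP hQ hQM hab (hX a) (hX b)
      have h3 := Complex.abs_re_le_norm (pr ι (X a) (X b))
      have h4 := neg_abs_le (pr ι (X a) (X b)).re
      linarith
  have h2 : ∑ a ∈ V, ∑ b ∈ V, ((if a = b then ht ι (X a) else 0) -
      (ht ι (X a) + ht ι (X b)) / (2 * P)) =
      ∑ a ∈ V, ht ι (X a) - V.card * (∑ a ∈ V, ht ι (X a)) / P := by
    simp only [Finset.sum_sub_distrib, Finset.sum_ite_eq, add_div, Finset.sum_add_distrib,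
      Finset.sum_const, nsmul_eq_mul, ← Finset.mul_sum, ← Finset.sum_div]
    rw [Finset.sum_congr rfl (fun a ha => if_pos ha)]
    field_simp
    ring
  have h3 : 0 ≤ ∑ a ∈ V, ht ι (X a) := Finset.sum_nonneg (fun a _ => ht_nonneg ι _)
  have h4 : V.card * (∑ a ∈ V, ht ι (X a)) / P ≤ (∑ a ∈ V, ht ι (X a)) / 2 := by
    rw [div_le_div_iff₀ hPr (by norm_num)]
    nlinarith
  linarith

include M₀ in
omit [NeZero M₀] in
lemma ht_ge' {x : K} (hx : IsIntegral ℤ x) (h0 : x ≠ 0) :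
    (Fintype.card Gal(K/ℚ) : ℝ) ≤ ht ι x := by
  have : IsGalois ℚ K := IsCyclotomicExtension.isGalois {M₀} ℚ K
  exact ht_ge ι hx h0

lemma indep (hP : 0 < P) (hQ : ∀ p : ℕ, p.Prime → p ≤ P → p ∣ Q) (hQM : Q ∣ M₀)
    {I : Type} [Fintype I] (hI : 2 * Fintype.card I ≤ P) (v Y : I → K)
    (hY : ∀ k, Y k ∈ WS K M₀ Q {v k}) (h0 : ∑ k, Y k = 0) (f : I → ℂ)
    (hf : ∀ k k', v k = v k' → f k = f k') : ∑ k, ι (Y k) * f k = 0 := by
  classical
  set V : Finset K := Finset.univ.image v with hVdef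
  have hV : 2 * V.card ≤ P := by
    have : V.card ≤ Fintype.card I := Finset.card_image_le
    omega
  set S : K → K := fun w => ∑ k ∈ Finset.univ.filter (fun k => v k = w), Y k with hS
  have hSW : ∀ w, S w ∈ WS K M₀ Q {w} := by
    intro w
    refine Submodule.sum_mem _ (fun k hk => ?_)
    rw [Finset.mem_filter] at hk
    rw [← hk.2]; exact hY k
  have hmaps : ∀ k ∈ (Finset.univ : Finset I), v k ∈ V := fun k hk => Finset.mem_image_of_mem v hk
  have hsum : ∑ w ∈ V, S w = 0 := by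
    rw [← h0]; exact Finset.sum_fiberwise_of_maps_to hmaps Y
  have h1 := ht_sum_W ι hP hQ hQM V hV S hSW
  rw [hsum, ht_zero, mul_zero] at h1
  have h2 : ∀ w ∈ V, S w = 0 := by
    intro w hw
    by_contra hne
    have h3 := ht_ge' (M₀ := M₀) ι (O_integral (NeZero.ne M₀) (WS_le_O _ (hSW w))) hne
    have h4 := Finset.single_le_sum (f := fun w => ht ι (S w)) (fun a _ => ht_nonneg ι _) hw
    have h5 : (0 : ℝ) < Fintype.card Gal(K/ℚ) := by exact_mod_cast Fintype.card_pos
    linarith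
  rw [← Finset.sum_fiberwise_of_maps_to hmaps]
  refine Finset.sum_eq_zero (fun w hw => ?_)
  obtain ⟨k₀, -, hk₀⟩ := Finset.mem_image.mp hw
  have : ∑ k ∈ Finset.univ.filter (fun k => v k = w), ι (Y k) * f k = ι (S w) * f k₀ := by
    rw [hS, map_sum, Finset.sum_mul]
    refine Finset.sum_congr rfl (fun k hk => ?_)
    rw [Finset.mem_filter] at hk
    rw [hf k k₀ (hk.2.trans hk₀.symm)]
  rw [this, h2 w hw]; simp

lemma shrink (hP : 0 < P) (hQ : ∀ p : ℕ, p.Prime → p ≤ P → p ∣ Q) (hQM : Q ∣ M₀)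
    (V : Finset K) (hV : 2 * V.card ≤ P) {β : K} (hβ : β ∈ WS K M₀ Q (V : Set K)) :
    ∃ V' : Finset K, (V'.card : ℝ) * Fintype.card Gal(K/ℚ) ≤ 2 * ht ι β ∧
      β ∈ WS K M₀ Q (V' : Set K) := by
  classical
  obtain ⟨X, hX, rfl⟩ := WS_decomp V id (by simpa using hβ)
  have h1 := ht_sum_W ι hP hQ hQM V hV X hX
  refine ⟨V.filter (fun v => X v ≠ 0), le_trans ?_ h1, ?_⟩
  · calc ((V.filter (fun v => X v ≠ 0)).card : ℝ) * Fintype.card Gal(K/ℚ)
        = ∑ v ∈ V.filter (fun v => X v ≠ 0), (Fintype.card Gal(K/ℚ) : ℝ) := by simp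
      _ ≤ ∑ v ∈ V.filter (fun v => X v ≠ 0), ht ι (X v) := by
          refine Finset.sum_le_sum (fun v hv => ?_)
          exact ht_ge' (M₀ := M₀) ι (O_integral (NeZero.ne M₀) (WS_le_O _ (hX v)))
            (Finset.mem_filter.mp hv).2
      _ ≤ ∑ v ∈ V, ht ι (X v) :=
          Finset.sum_le_sum_of_subset_of_nonneg (Finset.filter_subset _ _)
            (fun v _ _ => ht_nonneg ι _)
  · rw [← Finset.sum_filter_ne_zero]
    refine Submodule.sum_mem _ (fun v hv => WS_mono ?_ (hX v))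
    simpa using hv

omit [NeZero M₀] [IsCyclotomicExtension {M₀} ℚ K] in
lemma combine {T : ℕ} (s : Finset ℕ) (A ξ : ℕ → K) (hξ : ∀ r, ξ r ^ M₀ = 1)
    (hA : ∀ r ∈ s, ∃ V : Finset K, (V.card : ℝ) * Fintype.card Gal(K/ℚ) ≤ 2 * ht ι (A r) ∧
      A r ∈ WS K M₀ Q (V : Set K))
    (hs : ∑ r ∈ s, ht ι (A r) ≤ 2 * T * Fintype.card Gal(K/ℚ)) :
    ∃ V : Finset K, V.card ≤ 4 * T ∧ ∑ r ∈ s, A r * ξ r ∈ WS K M₀ Q (V : Set K) := by
  classical
  choose! V hV1 hV2 using hA
  refine ⟨s.biUnion (fun r => (V r).image (fun v => v * ξ r ^ Q)), ?_, ?_⟩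
  · have h1 : (s.biUnion (fun r => (V r).image (fun v => v * ξ r ^ Q))).card ≤
        ∑ r ∈ s, (V r).card :=
      Finset.card_biUnion_le.trans (Finset.sum_le_sum (fun r _ => Finset.card_image_le))
    have h2 : (∑ r ∈ s, ((V r).card : ℝ)) * Fintype.card Gal(K/ℚ) ≤
        (4 * T) * Fintype.card Gal(K/ℚ) := by
      rw [Finset.sum_mul]
      refine (Finset.sum_le_sum hV1).trans ?_
      rw [← Finset.mul_sum]; linarith
    have h5 : (0 : ℝ) < Fintype.card Gal(K/ℚ) := by exact_mod_cast Fintype.card_pos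
    have h3 := le_of_mul_le_mul_right h2 h5
    have h4 : ∑ r ∈ s, (V r).card ≤ 4 * T := by exact_mod_cast h3
    omega
  · refine Submodule.sum_mem _ (fun r hr => WS_mono ?_ (WS_mul_root (hV2 r hr) (hξ r)))
    rintro _ ⟨v, hv, rfl⟩
    simp only [Finset.coe_biUnion, Finset.coe_image, Set.mem_iUnion]
    exact ⟨r, hr, v, hv, rfl⟩

omit [NumberField K] in
lemma O_decomp {p M' : ℕ} {ξ : K}
    (hξ : ∀ x : K, x ^ (p * M') = 1 → ∃ r < p, ∃ x' : K, x' ^ M' = 1 ∧ x = x' * ξ ^ r)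
    {β : K} (hβ : β ∈ O K (p * M')) :
    ∃ A : ℕ → K, (∀ r, A r ∈ O K M') ∧ β = ∑ r ∈ range p, A r * ξ ^ r := by
  induction hβ using Submodule.span_induction with
  | mem y hy =>
    obtain ⟨r, hr, x', h1, rfl⟩ := hξ y hy
    refine ⟨Pi.single r x', fun b => ?_, ?_⟩
    · by_cases hb : b = r
      · subst hb
        rw [Pi.single_eq_same]
        exact Submodule.subset_span h1
      · rw [Pi.single_eq_of_ne hb]; exact Submodule.zero_mem _
    · rw [Finset.sum_eq_single r]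
      · simp
      · intro b _ hb; simp [Pi.single_eq_of_ne hb]
      · intro h; exact absurd (Finset.mem_range.mpr hr) h
  | zero => exact ⟨0, fun _ => Submodule.zero_mem _, by simp⟩
  | add y z _ _ hy hz =>
    obtain ⟨X, hX, rfl⟩ := hy
    obtain ⟨Y, hY, rfl⟩ := hz
    exact ⟨X + Y, fun a => Submodule.add_mem _ (hX a) (hY a), by
      simp [Finset.sum_add_distrib, add_mul]⟩
  | smul c y _ hy =>
    obtain ⟨X, hX, rfl⟩ := hy
    exact ⟨c • X, fun a => Submodule.smul_mem _ _ (hX a), by simp [Finset.mul_sum, mul_assoc]⟩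

lemma exists_prim {M : ℕ} (hM : M ∣ M₀) : ∃ ξ : K, IsPrimitiveRoot ξ M := by
  obtain ⟨c, hc⟩ := hM
  exact ⟨_, (IsCyclotomicExtension.zeta_spec M₀ ℚ K).pow (NeZero.pos M₀) (hc.trans (mul_comm _ _))⟩

theorem sparse {T : ℕ} (hT : 0 < T) (hPT : 8 * T ≤ P)
    (hQ : ∀ p : ℕ, p.Prime → p ≤ P → p ∣ Q) (hQM : Q ∣ M₀) (t : ℕ) :
    Q * t ∣ M₀ → ∀ β ∈ O K (Q * t), ht ι β < T * Fintype.card Gal(K/ℚ) →
      ∃ V : Finset K, V.card ≤ 4 * T ∧ β ∈ WS K M₀ Q (V : Set K) := by
  classical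
  have hP : 0 < P := by omega
  have hg : (0 : ℝ) < Fintype.card Gal(K/ℚ) := by exact_mod_cast Fintype.card_pos
  induction t using induction_on_primes with
  | zero =>
    intro h; rw [mul_zero] at h
    exact absurd (Nat.eq_zero_of_zero_dvd h) (NeZero.ne M₀)
  | one =>
    intro _ β hβ _
    refine ⟨{1}, by simp; omega, ?_⟩
    rw [mul_one] at hβ
    refine Submodule.span_mono (fun x hx => ?_) hβ
    obtain ⟨c, rfl⟩ := hQM
    have hx' : x ^ Q = 1 := hx
    exact ⟨by rw [pow_mul, hx', one_pow], by simpa using hx'⟩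
  | prime_mul p a hp ih =>
    intro hd β hβ hh
    have e : Q * (p * a) = p * (Q * a) := by ring
    rw [e] at hd hβ
    set M' := Q * a with hM'
    have hM'd : M' ∣ M₀ := Dvd.dvd.trans (Dvd.intro_left p rfl) hd
    have hM'0 : M' ≠ 0 := by
      intro h; rw [h] at hM'd
      exact absurd (Nat.eq_zero_of_zero_dvd hM'd) (NeZero.ne M₀)
    have ih' : ∀ A ∈ O K M', ht ι A < T * Fintype.card Gal(K/ℚ) →
        ∃ V : Finset K, (V.card : ℝ) * Fintype.card Gal(K/ℚ) ≤ 2 * ht ι A ∧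
          A ∈ WS K M₀ Q (V : Set K) := by
      intro A hA hAh
      obtain ⟨V, hV1, hV2⟩ := ih hM'd A hA hAh
      exact shrink ι hP hQ hQM V (by omega) hV2
    by_cases hpM : p ∣ M'
    · obtain ⟨ξ, hξ⟩ := exists_prim (K := K) hd
      have hpM0 : p * M' ≠ 0 := Nat.mul_ne_zero hp.ne_zero hM'0
      have : NeZero (p * M') := ⟨hpM0⟩
      have hξ0 : ξ ≠ 0 := hξ.ne_zero hpM0
      have hξr : ∀ r : ℕ, (ξ ^ r) ^ (p * M') = 1 := fun r => by
        rw [← pow_mul, mul_comm, pow_mul, hξ.pow_eq_one, one_pow]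
      obtain ⟨A, hA, rfl⟩ := O_decomp (ξ := ξ) (by
        intro x hx
        obtain ⟨i, -, rfl⟩ := hξ.eq_pow_of_pow_eq_one hx
        refine ⟨i % p, Nat.mod_lt _ hp.pos, (ξ ^ p) ^ (i / p), ?_, ?_⟩
        · rw [← pow_mul, ← pow_mul, show p * (i / p * M') = p * M' * (i / p) by ring, pow_mul,
            hξ.pow_eq_one, one_pow]
        · rw [← pow_mul, ← pow_add, Nat.div_add_mod]) hβ
      have hform : ht ι (∑ r ∈ range p, A r * ξ ^ r) = ∑ r ∈ range p, ht ι (A r) := by
        rw [ht_sum]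
        refine Finset.sum_congr rfl (fun r hr => ?_)
        rw [Finset.sum_eq_single r]
        · rw [pr_self, Complex.ofReal_re, ht_root ι hpM0 (hξr r)]
        · intro s hs hsr
          have e2 : A r * ξ ^ r = A r * (ξ ^ r * (ξ ^ s)⁻¹) * ξ ^ s := by field_simp
          rw [e2, pr_root ι hpM0 (hξr s), pr_caseI ι hp hpM hd ?_ ?_ (hA r) (hA s)]
          · simp
          · rw [mul_pow, inv_pow, hξr, hξr]; simp
          · intro h
            rw [mul_pow, inv_pow, mul_inv_eq_one₀ (by positivity), ← pow_mul, ← pow_mul] at h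
            have hM'pos : 0 < M' := Nat.pos_of_ne_zero hM'0
            have := hξ.pow_inj (Nat.mul_lt_mul_of_pos_right (Finset.mem_range.mp hr) hM'pos)
              (Nat.mul_lt_mul_of_pos_right (Finset.mem_range.mp hs) hM'pos) h
            exact hsr (Nat.eq_of_mul_eq_mul_right hM'pos this).symm
        · intro h; exact absurd hr h
      rw [hform] at hh
      refine combine ι (range p) A (fun r => ξ ^ r) (fun r => ?_) (fun r hr => ih' _ (hA r) ?_) ?_
      · obtain ⟨c, hc⟩ := hd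
        rw [hc, pow_mul, hξr, one_pow]
      · exact lt_of_le_of_lt (Finset.single_le_sum (f := fun r => ht ι (A r))
          (fun a _ => ht_nonneg ι _) hr) hh
      · have : (0 : ℝ) ≤ T * Fintype.card Gal(K/ℚ) := by positivity
        linarith
    · have hpd : p ∣ M₀ := Dvd.dvd.trans (Dvd.intro M' rfl) hd
      obtain ⟨ξ, hξ⟩ := exists_prim (K := K) hpd
      have : NeZero p := ⟨hp.ne_zero⟩
      have hξ0 : ξ ≠ 0 := hξ.ne_zero hp.ne_zero
      have hξr : ∀ r : ℕ, (ξ ^ r) ^ p = 1 := fun r => by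
        rw [← pow_mul, mul_comm, pow_mul, hξ.pow_eq_one, one_pow]
      have hcop : p.Coprime M' := (Nat.Prime.coprime_iff_not_dvd hp).mpr hpM
      have hPp : P + 1 ≤ p := by
        by_contra hc
        exact hpM (Dvd.dvd.mul_right (hQ p hp (by omega)) a)
      obtain ⟨A, hA, rfl⟩ := O_decomp (ξ := ξ) (by
        intro x hx
        obtain ⟨u, v, hu, hv, rfl⟩ := split_root hcop hx
        obtain ⟨i, hi, rfl⟩ := hξ.eq_pow_of_pow_eq_one hu
        exact ⟨i, hi, v, hv, mul_comm _ _⟩) hβ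
      have hform : ∀ A : ℕ → K, (∀ r, A r ∈ O K M') →
          ((p : ℝ) - 1) * ht ι (∑ r ∈ range p, A r * ξ ^ r) =
          p * ∑ r ∈ range p, ht ι (A r) - ht ι (∑ r ∈ range p, A r) := by
        intro A hA
        rw [ht_sum, ht_sum, Finset.mul_sum, Finset.mul_sum, ← Finset.sum_sub_distrib]
        refine Finset.sum_congr rfl (fun r hr => ?_)
        have : ∀ s ∈ range p, ((p : ℝ) - 1) * (pr ι (A r * ξ ^ r) (A s * ξ ^ s)).re =
            (if r = s then p * ht ι (A r) else 0) - (pr ι (A r) (A s)).re := by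
          intro s hs
          by_cases hrs : r = s
          · subst hrs
            rw [if_pos rfl, pr_self, pr_self, Complex.ofReal_re, Complex.ofReal_re,
              ht_root ι hp.ne_zero (hξr r)]
            ring
          · have e2 : A r * ξ ^ r = A r * (ξ ^ r * (ξ ^ s)⁻¹) * ξ ^ s := by field_simp
            rw [if_neg hrs, e2, pr_root ι hp.ne_zero (hξr s)]
            have h3 := pr_caseII ι hp hpM hd (η := ξ ^ r * (ξ ^ s)⁻¹)
              (by rw [mul_pow, inv_pow, hξr, hξr]; simp) (by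
                intro h
                rw [mul_inv_eq_one₀ (by positivity)] at h
                exact hrs (hξ.pow_inj (Finset.mem_range.mp hr) (Finset.mem_range.mp hs) h))
              (hA r) (hA s)
            have h4 := congrArg Complex.re h3
            simpa using h4
        rw [Finset.mul_sum, Finset.sum_congr rfl this, Finset.sum_sub_distrib, Finset.sum_ite_eq,
          if_pos hr]
      have hgeom : ∑ r ∈ range p, ξ ^ r = 0 := hξ.geom_sum_eq_zero hp.one_lt
      have hp1 : (1 : ℝ) < p := by exact_mod_cast hp.one_lt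
      set β := ∑ r ∈ range p, A r * ξ ^ r with hβdef
      have hβ0 := ht_nonneg ι β
      have hshift : ∑ s ∈ range p, ∑ r ∈ range p, ht ι (A r - A s) =
          2 * (((p : ℝ) - 1) * ht ι β) := by
        rw [hβdef, hform A hA, ht_sum ι (range p) A, Finset.sum_comm]
        simp only [ht_sub, Finset.sum_sub_distrib, Finset.sum_add_distrib, Finset.sum_const,
          card_range, nsmul_eq_mul, ← Finset.mul_sum]
        ring
      obtain ⟨s, -, hs⟩ : ∃ s ∈ range p, ∑ r ∈ range p, ht ι (A r - A s) ≤ 2 * ht ι β := by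
        refine Finset.exists_le_of_sum_le (Finset.nonempty_range_iff.mpr hp.ne_zero) ?_
        rw [hshift]
        simp only [Finset.sum_const, card_range, nsmul_eq_mul]
        nlinarith
      set B : ℕ → K := fun r => A r - A s with hB
      have hBO : ∀ r, B r ∈ O K M' := fun r => Submodule.sub_mem _ (hA r) (hA s)
      have hβB : β = ∑ r ∈ range p, B r * ξ ^ r := by
        simp only [hB, sub_mul, Finset.sum_sub_distrib, ← Finset.mul_sum, hgeom, mul_zero, sub_zero]
        rfl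
      have hf2 := hform B hBO
      rw [← hβB] at hf2
      set U := (range p).filter (fun r => B r ≠ 0) with hU
      have hU1 : ∑ r ∈ range p, B r = ∑ r ∈ U, B r := (Finset.sum_filter_ne_zero _).symm
      have hU2 : ∑ r ∈ range p, ht ι (B r) = ∑ r ∈ U, ht ι (B r) := by
        symm
        refine Finset.sum_subset (Finset.filter_subset _ _) (fun r hr hr' => ?_)
        have : B r = 0 := by
          by_contra hc
          exact hr' (Finset.mem_filter.mpr ⟨hr, hc⟩)
        rw [this, ht_zero]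
      have hU3 : ∀ r ∈ U, (Fintype.card Gal(K/ℚ) : ℝ) ≤ ht ι (B r) := fun r hr =>
        ht_ge' (M₀ := M₀) ι (O_integral hM'0 (hBO r)) (Finset.mem_filter.mp hr).2
      have hU4 := ht_sum_le ι U B
      have hs' : ∑ r ∈ range p, ht ι (B r) ≤ 2 * ht ι β := hs
      rw [hβB]
      refine combine ι (range p) B (fun r => ξ ^ r) (fun r => ?_) (fun r hr => ih' _ (hBO r) ?_) ?_
      · obtain ⟨c, hc⟩ := hpd
        rw [hc, pow_mul, hξr, one_pow]
      · by_cases hr0 : B r = 0
        · rw [hr0, ht_zero]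
          have : (0 : ℝ) < T := by exact_mod_cast hT
          positivity
        have hrU : r ∈ U := Finset.mem_filter.mpr ⟨hr, hr0⟩
        have h5 : ht ι (B r) + ((U.card : ℝ) - 1) * Fintype.card Gal(K/ℚ) ≤
            ∑ r ∈ U, ht ι (B r) := by
          rw [← Finset.add_sum_erase U _ hrU]
          have h6 : ∑ _x ∈ U.erase r, (Fintype.card Gal(K/ℚ) : ℝ) ≤
              ∑ x ∈ U.erase r, ht ι (B x) :=
            Finset.sum_le_sum (fun x hx => hU3 x (Finset.mem_of_mem_erase hx))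
          have hc : 1 ≤ U.card := Finset.card_pos.mpr ⟨r, hrU⟩
          rw [Finset.sum_const, Finset.card_erase_of_mem hrU, nsmul_eq_mul, Nat.cast_sub hc] at h6
          simp only [Nat.cast_one] at h6
          linarith
        have hc : (1 : ℝ) ≤ U.card := by exact_mod_cast Finset.card_pos.mpr ⟨r, hrU⟩
        have hpT : 8 * (T : ℝ) + 1 ≤ p := by exact_mod_cast (by omega : 8 * T + 1 ≤ p)
        rw [hU1, hU2] at hf2
        rw [hU2] at hs'
        by_contra hcon
        rw [not_lt] at hcon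
        set g : ℝ := ((Fintype.card Gal(K/ℚ) : ℕ) : ℝ)
        set S := ∑ r ∈ U, ht ι (B r)
        set X : ℝ := ((U.card : ℕ) : ℝ)
        set H := ht ι β
        have hX : X < 2 * T := by
          have h7 := hU3 r hrU
          have : X * g < 2 * T * g := by nlinarith
          exact lt_of_mul_lt_mul_right this hg.le
        have h8 : ((p : ℝ) - X) * S ≤ ((p : ℝ) - 1) * H := by nlinarith
        have h9 : ((p : ℝ) - X) * ((T + X - 1) * g) ≤ ((p : ℝ) - X) * S :=
          mul_le_mul_of_nonneg_left (by nlinarith) (by linarith)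
        have h10 : ((p : ℝ) - 1) * H < ((p : ℝ) - 1) * (T * g) :=
          mul_lt_mul_of_pos_left hh (by linarith)
        have h11 : (((p : ℝ) - X) * (T + X - 1)) * g < (((p : ℝ) - 1) * T) * g := by nlinarith
        have h12 := lt_of_mul_lt_mul_right h11 hg.le
        nlinarith [mul_nonneg (sub_nonneg.mpr hc) (by linarith : (0 : ℝ) ≤ p - X - T)]
      · linarith

end Pool.Agent.Lib.MP_4dc1c3_nt
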