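import Mathlib
import Pool.Agent.Lib.MP_4dc1c3_nt.Sparse

/-!
Deforming an identity between hermitian squares of sparse cyclotomic integers into a real
family, and the rank argument.
-/

set_option autoImplicit false

open Finset ComplexConjugate Filter Topology

namespace Pool.Agent.Lib.MP_4dc1c3_nt

lemma digits_zero (B : ℤ) (n : ℕ) : ∀ z : Fin n → ℤ, (∀ i, |z i| < B) →
    ∑ i, z i * B ^ (i : ℕ) = 0 → z = 0 := by
  induction n with
  | zero => intro z _ _; exact Subsingleton.elim _ _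
  | succ n ih =>
    intro z hz h
    have hB : 0 < B := lt_of_le_of_lt (abs_nonneg _) (hz 0)
    rw [Fin.sum_univ_succ] at h
    have e : ∑ i : Fin n, z i.succ * B ^ ((i.succ : Fin (n + 1)) : ℕ) =
        B * ∑ i : Fin n, z i.succ * B ^ (i : ℕ) := by
      rw [Finset.mul_sum]
      refine Finset.sum_congr rfl (fun i _ => ?_)
      rw [Fin.val_succ, pow_succ]; ring
    rw [e] at h
    simp only [Fin.coe_ofNat_eq_mod, Nat.zero_mod, pow_zero, mul_one] at h
    have h0 : z 0 = 0 := by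
      refine Int.eq_zero_of_abs_lt_dvd (m := B) ?_ (hz 0)
      exact ⟨-∑ i : Fin n, z i.succ * B ^ (i : ℕ), by linarith⟩
    rw [h0, zero_add, mul_eq_zero] at h
    have h1 := ih (fun i => z i.succ) (fun i => hz _) (h.resolve_left hB.ne')
    funext i
    refine Fin.cases h0 (fun j => ?_) i
    exact congrFun h1 j

lemma lattice {E : Type} [AddCommGroup E] (n : ℕ) (j : (Fin n → ℤ) →ₗ[ℤ] E) (F : Finset E) :
    ∃ C : ℕ, ∀ (A : Type) [AddCommGroup A] (h : E →ₗ[ℤ] A),
      (∀ z : Fin n → ℤ, z ≠ 0 → (∀ i, |z i| ≤ C) → h (j z) ≠ 0) →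
      ∃ W : E →ₗ[ℤ] (Fin n → ℝ), (∀ z i, W (j z) i = z i) ∧ ∀ f ∈ F, h f = 0 → W f = 0 := by
  classical
  have hex : ∀ S : Finset E, ∃ c : ℕ,
      (∃ z : Fin n → ℤ, z ≠ 0 ∧ j z ∈ Submodule.span ℤ (S : Set E)) →
      ∃ z : Fin n → ℤ, z ≠ 0 ∧ j z ∈ Submodule.span ℤ (S : Set E) ∧ ∀ i, |z i| ≤ c := by
    intro S
    by_cases hz : ∃ z : Fin n → ℤ, z ≠ 0 ∧ j z ∈ Submodule.span ℤ (S : Set E)
    · obtain ⟨z, h1, h2⟩ := hz
      refine ⟨Finset.univ.sup (fun i => (z i).natAbs), fun _ => ⟨z, h1, h2, fun i => ?_⟩⟩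
      have : (z i).natAbs ≤ Finset.univ.sup (fun i => (z i).natAbs) :=
        Finset.le_sup (f := fun i => (z i).natAbs) (Finset.mem_univ i)
      rw [Int.abs_eq_natAbs]
      exact_mod_cast this
    · exact ⟨0, fun h => absurd h hz⟩
  choose c hc using hex
  refine ⟨F.powerset.sup c, fun A _ h hgen => ?_⟩
  set S := F.filter (fun f => h f = 0) with hS
  have hker : Submodule.span ℤ (S : Set E) ≤ LinearMap.ker h := by
    rw [Submodule.span_le]
    intro f hf
    exact (Finset.mem_filter.mp hf).2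
  have hno : ¬ ∃ z : Fin n → ℤ, z ≠ 0 ∧ j z ∈ Submodule.span ℤ (S : Set E) := by
    intro hz
    obtain ⟨z, h1, h2, h3⟩ := hc S hz
    refine hgen z h1 (fun i => (h3 i).trans ?_) (hker h2)
    exact_mod_cast Finset.le_sup (f := c) (Finset.mem_powerset.mpr (Finset.filter_subset _ _))
  have hinj : Function.Injective ((Submodule.span ℤ (S : Set E)).mkQ ∘ₗ j) := by
    rw [← LinearMap.ker_eq_bot, LinearMap.ker_eq_bot']
    intro z hz
    by_contra h0
    exact hno ⟨z, h0, (Submodule.Quotient.mk_eq_zero _).mp hz⟩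
  let _ : DivisibleBy (Fin n → ℝ) ℤ :=
    { div := fun a m => fun i => a i / m
      div_zero := fun a => by funext i; simp
      div_cancel := fun {m} a hm => by
        funext i
        have : (m : ℝ) ≠ 0 := by exact_mod_cast hm
        simp only [Pi.smul_apply, zsmul_eq_mul]
        field_simp }
  let g : (Fin n → ℤ) →ₗ[ℤ] (Fin n → ℝ) :=
    { toFun := fun z i => z i
      map_add' := fun x y => by funext i; simp
      map_smul' := fun a x => by funext i; simp }
  obtain ⟨W₀, hW₀⟩ := (Module.Baer.of_divisible (Fin n → ℝ)).extension_property _ hinj g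
  refine ⟨W₀ ∘ₗ (Submodule.span ℤ (S : Set E)).mkQ, fun z i => ?_, fun f hf hf0 => ?_⟩
  · have := congrFun (LinearMap.congr_fun hW₀ z) i
    simpa [g] using this
  · have : (Submodule.span ℤ (S : Set E)).mkQ f = 0 :=
      (Submodule.Quotient.mk_eq_zero _).mpr
        (Submodule.subset_span (Finset.mem_filter.mpr ⟨hf, hf0⟩))
    simp [this]

lemma analysis0 {m n : ℕ} (hmn : 2 * m < n) {Λ : Type} [Fintype Λ] (C : Fin m → Λ → ℂ)
    (w : Fin m → Λ → Fin n → ℝ)
    (H : ∀ s : Fin n → ℝ,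
      ∑ j, ‖∑ l, C j l * Complex.exp (Complex.I * ((∑ i, w j l i * s i : ℝ) : ℂ))‖ ^ 2 =
        ∑ i, (2 * Real.sin (s i)) ^ 2) : False := by
  have h0 : ∀ j, ∑ l, C j l = 0 := by
    have := H 0
    simp only [Pi.zero_apply, mul_zero, Finset.sum_const_zero, Complex.ofReal_zero,
      Complex.exp_zero, mul_one, Real.sin_zero, ne_eq, OfNat.ofNat_ne_zero, not_false_eq_true,
      zero_pow] at this
    rw [Finset.sum_eq_zero_iff_of_nonneg (fun j _ => by positivity)] at this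
    intro j
    simpa using this j (Finset.mem_univ j)
  let D : (Fin n → ℝ) →ₗ[ℝ] (Fin m → ℂ) :=
    { toFun := fun s j => ∑ l, C j l * ((∑ i, w j l i * s i : ℝ) : ℂ)
      map_add' := fun x y => by
        funext j
        simp [mul_add, Finset.sum_add_distrib]
      map_smul' := fun a x => by
        funext j
        simp only [Pi.smul_apply, smul_eq_mul, RingHom.id_apply, Complex.real_smul, Finset.mul_sum]
        refine Finset.sum_congr rfl (fun l _ => ?_)
        push_cast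
        rw [Finset.mul_sum, Finset.mul_sum, Finset.mul_sum]
        exact Finset.sum_congr rfl (fun i _ => by ring) }
  have hk : LinearMap.ker D ≠ ⊥ := by
    apply LinearMap.ker_ne_bot_of_finrank_lt
    rw [Module.finrank_pi_fintype]
    simp [Complex.finrank_real_complex]
    omega
  obtain ⟨v, hv, hv0⟩ := (Submodule.ne_bot_iff _).mp hk
  have hv' : ∀ j, ∑ l, C j l * ((∑ i, w j l i * v i : ℝ) : ℂ) = 0 := fun j =>
    congrFun (LinearMap.mem_ker.mp hv) j
  let b : Fin m → ℝ → ℂ := fun j t =>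
    ∑ l, C j l * Complex.exp (Complex.I * ((t * ∑ i, w j l i * v i : ℝ) : ℂ))
  have hb0 : ∀ j, b j 0 = 0 := fun j => by simp [b, h0 j]
  have hb : ∀ j, HasDerivAt (b j) 0 0 := by
    intro j
    have h1 : ∀ l ∈ (Finset.univ : Finset Λ), HasDerivAt
        (fun t : ℝ => C j l * Complex.exp (Complex.I * ((t * ∑ i, w j l i * v i : ℝ) : ℂ)))
        (Complex.I * (C j l * ((∑ i, w j l i * v i : ℝ) : ℂ))) 0 := by
      intro l _
      have h2 := ((((hasDerivAt_mul_const (x := (0 : ℝ))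
        (∑ i, w j l i * v i)).ofReal_comp).const_mul Complex.I).cexp).const_mul (C j l)
      have e : Complex.I * (C j l * ((∑ i, w j l i * v i : ℝ) : ℂ)) = C j l *
          (Complex.exp (Complex.I * (((0 : ℝ) * ∑ i, w j l i * v i : ℝ) : ℂ)) *
            (Complex.I * ((∑ i, w j l i * v i : ℝ) : ℂ))) := by
        rw [zero_mul, Complex.ofReal_zero, mul_zero, Complex.exp_zero]; ring
      rw [e]
      exact h2
    have h3 := HasDerivAt.fun_sum h1
    rwa [← Finset.mul_sum, hv' j, mul_zero] at h3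
  have T1 : ∀ j, Tendsto (fun t : ℝ => t⁻¹ • b j t) (𝓝[≠] 0) (𝓝 0) := by
    intro j
    have := hasDerivAt_iff_tendsto_slope_zero.mp (hb j)
    simpa [hb0 j] using this
  have T2 : ∀ i, Tendsto (fun t : ℝ => t⁻¹ * (2 * Real.sin (t * v i))) (𝓝[≠] 0) (𝓝 (2 * v i)) := by
    intro i
    have h1 : HasDerivAt (fun t : ℝ => 2 * Real.sin (t * v i)) (2 * v i) 0 := by
      have := ((hasDerivAt_mul_const (x := (0 : ℝ)) (v i)).sin).const_mul 2
      simpa using this
    have := hasDerivAt_iff_tendsto_slope_zero.mp h1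
    simpa using this
  have T3 : Tendsto (fun t : ℝ => ∑ j, ‖t⁻¹ • b j t‖ ^ 2) (𝓝[≠] 0) (𝓝 (∑ _j : Fin m, ‖(0 : ℂ)‖ ^ 2)) :=
    tendsto_finsetSum _ (fun j _ => ((T1 j).norm).pow 2)
  have T4 : Tendsto (fun t : ℝ => ∑ i, (t⁻¹ * (2 * Real.sin (t * v i))) ^ 2) (𝓝[≠] 0)
      (𝓝 (∑ i, (2 * v i) ^ 2)) :=
    tendsto_finsetSum _ (fun i _ => (T2 i).pow 2)
  have hE : (fun t : ℝ => ∑ j, ‖t⁻¹ • b j t‖ ^ 2) =
      (fun t : ℝ => ∑ i, (t⁻¹ * (2 * Real.sin (t * v i))) ^ 2) := by
    funext t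
    have h1 := H (t • v)
    have e : ∀ j l, ∑ i, w j l i * (t • v) i = t * ∑ i, w j l i * v i := by
      intro j l
      rw [Finset.mul_sum]
      exact Finset.sum_congr rfl (fun i _ => by simp; ring)
    simp only [e] at h1
    simp only [norm_smul, mul_pow, Real.norm_eq_abs, sq_abs, ← Finset.mul_sum] at h1 ⊢
    simp only [Pi.smul_apply, smul_eq_mul] at h1
    rw [← h1]
  rw [hE] at T3
  have h5 := tendsto_nhds_unique T4 T3
  simp only [norm_zero, ne_eq, OfNat.ofNat_ne_zero, not_false_eq_true, zero_pow,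
    Finset.sum_const_zero] at h5
  rw [Finset.sum_eq_zero_iff_of_nonneg (fun j _ => by positivity)] at h5
  apply hv0
  funext i
  simpa using h5 i (Finset.mem_univ i)

lemma analysis {m n : ℕ} (hmn : 2 * m < n) {Λ : Type} [Fintype Λ] (C : Fin m → Λ → ℂ)
    (w : Fin m → Λ → Fin n → ℝ) (η : Fin n → ℂ) (hη : ∀ i, ‖η i‖ = 1)
    (H : ∀ s : Fin n → ℝ,
      ∑ j, ‖∑ l, C j l * Complex.exp (Complex.I * ((∑ i, w j l i * s i : ℝ) : ℂ))‖ ^ 2 =
        ∑ i, ‖η i * Complex.exp (Complex.I * (s i : ℂ)) +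
          (η i)⁻¹ * Complex.exp (Complex.I * ((-s i : ℝ) : ℂ))‖ ^ 2) : False := by
  let s₀ : Fin n → ℝ := fun i => Real.pi / 2 - Complex.arg (η i)
  refine analysis0 hmn
    (fun j l => C j l * Complex.exp (Complex.I * ((∑ i, w j l i * s₀ i : ℝ) : ℂ))) w (fun s => ?_)
  have h1 := H (s₀ + s)
  have e : ∀ j l, C j l * Complex.exp (Complex.I * ((∑ i, w j l i * (s₀ + s) i : ℝ) : ℂ)) =
      C j l * Complex.exp (Complex.I * ((∑ i, w j l i * s₀ i : ℝ) : ℂ)) *
        Complex.exp (Complex.I * ((∑ i, w j l i * s i : ℝ) : ℂ)) := by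
    intro j l
    rw [mul_assoc, ← Complex.exp_add, ← mul_add, ← Complex.ofReal_add, ← Finset.sum_add_distrib]
    simp [mul_add]
  simp only [e] at h1
  rw [h1]
  refine Finset.sum_congr rfl (fun i _ => ?_)
  have h2 : η i = Complex.exp (Complex.arg (η i) * Complex.I) := by
    have := Complex.norm_mul_exp_arg_mul_I (η i)
    rw [hη i] at this
    simpa using this.symm
  have h3 : η i * Complex.exp (Complex.I * ((s₀ + s) i : ℂ)) +
      (η i)⁻¹ * Complex.exp (Complex.I * ((-(s₀ + s) i : ℝ) : ℂ)) =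
      ((-(2 * Real.sin (s i)) : ℝ) : ℂ) := by
    have h4 : Real.sin (s i) = - Real.cos (s i + Real.pi / 2) := by
      rw [Real.cos_add_pi_div_two]; ring
    rw [h4]
    nth_rewrite 1 [h2]
    nth_rewrite 2 [h2]
    rw [← Complex.exp_neg, ← Complex.exp_add, ← Complex.exp_add]
    push_cast
    rw [mul_neg (2 : ℂ), neg_neg, Complex.two_cos]
    simp only [s₀, Pi.add_apply]
    push_cast
    congr 1 <;> congr 1 <;> ring
  rw [h3, Complex.norm_real, Real.norm_eq_abs, sq_abs]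
  ring

variable {K : Type} [Field K] [NumberField K] (ι : K →+* ℂ)
variable {M₀ : ℕ} [NeZero M₀] [IsCyclotomicExtension {M₀} ℚ K] {P Q : ℕ}

lemma normsq_sum {Λ : Type} [Fintype Λ] (x : Λ → ℂ) :
    ((‖∑ l, x l‖ ^ 2 : ℝ) : ℂ) = ∑ l, ∑ l', x l * conj (x l') := by
  rw [← Finset.sum_mul_sum, ← map_sum, Complex.mul_conj']
  simp

lemma deform (hP : 0 < P) (hQ : ∀ p : ℕ, p.Prime → p ≤ P → p ∣ Q) (hQM : Q ∣ M₀)
    {J Λ E : Type} [Fintype J] [Fintype Λ] [AddCommGroup E]
    (hI : 2 * (Fintype.card J * (Fintype.card Λ * Fintype.card Λ)) ≤ P)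
    (c : J → ℤ) (Y : J → Λ → K) (a : J → Λ → E) (h : E →ₗ[ℤ] Additive Kˣ)
    (hY : ∀ j l, Y j l ∈ WS K M₀ Q {((Additive.toMul (h (a j l)) : Kˣ) : K)})
    (H : ∑ j, (c j : ℝ) * ‖ι (∑ l, Y j l)‖ ^ 2 = 0)
    (Wm : E →ₗ[ℤ] ℝ)
    (hW : ∀ j l l' j₂ l₂ l₂', h ((a j l - a j l') - (a j₂ l₂ - a j₂ l₂')) = 0 →
      Wm ((a j l - a j l') - (a j₂ l₂ - a j₂ l₂')) = 0) :
    ∑ j, (c j : ℝ) * ‖∑ l, ι (Y j l) * Complex.exp (Complex.I * (Wm (a j l) : ℂ))‖ ^ 2 = 0 := by
  choose Y' hY'1 hY'2 using fun j l => W_conj ι (hY j l)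
  have h1 := indep ι hP hQ hQM (I := J × Λ × Λ) (by simpa using hI)
    (fun k => ((Additive.toMul (h (a k.1 k.2.1 - a k.1 k.2.2)) : Kˣ) : K))
    (fun k => c k.1 • (Y k.1 k.2.1 * Y' k.1 k.2.2)) (by
      rintro ⟨j, l, l'⟩
      refine Submodule.smul_mem _ _ ?_
      have := W_mul (hY j l) (hY'1 j l')
      convert this using 3
      simp [div_eq_mul_inv]) (by
      apply ι.injective
      have H' := congrArg (fun x : ℝ => (x : ℂ)) H
      simp only [map_sum, Complex.ofReal_sum, Complex.ofReal_mul, normsq_sum,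
        Complex.ofReal_intCast, Complex.ofReal_zero] at H'
      rw [map_zero, ← H']
      simp only [Fintype.sum_prod_type, map_sum, zsmul_eq_mul, map_mul, map_intCast, hY'2,
        Finset.mul_sum])
    (fun k => Complex.exp (Complex.I * (Wm (a k.1 k.2.1 - a k.1 k.2.2) : ℂ))) (by
      rintro ⟨j, l, l'⟩ ⟨j₂, l₂, l₂'⟩ hk
      have h2 : h (a j l - a j l') = h (a j₂ l₂ - a j₂ l₂') :=
        Additive.toMul.injective (Units.ext hk)
      have h3 := hW j l l' j₂ l₂ l₂' (by rw [map_sub, h2, sub_self])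
      rw [map_sub, sub_eq_zero] at h3
      simp only [h3])
  apply Complex.ofReal_injective
  simp only [Complex.ofReal_sum, Complex.ofReal_mul, normsq_sum,
    Complex.ofReal_intCast, Complex.ofReal_zero]
  rw [← h1]
  simp only [Fintype.sum_prod_type, zsmul_eq_mul, map_mul, map_intCast, hY'2, Finset.mul_sum]
  refine Finset.sum_congr rfl (fun j _ => Finset.sum_congr rfl (fun l _ =>
    Finset.sum_congr rfl (fun l' _ => ?_)))
  rw [← Complex.exp_conj, map_sub]
  simp only [map_mul, Complex.conj_I, Complex.conj_ofReal]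
  push_cast
  rw [mul_sub, sub_eq_add_neg, Complex.exp_add, neg_mul]
  ring

end Pool.Agent.Lib.MP_4dc1c3_nt
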