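import Mathlib
import Pool.Agent.Lib.MP_4dc1c3_nt.Deform

/-!
The main estimate: an explicit sum of `2 m + 1` squares is not a sum of `m` squares of real
cyclotomic integers.
-/

set_option autoImplicit false

open Finset ComplexConjugate

namespace Pool.Agent.Lib.MP_4dc1c3_nt

lemma sq_real {z : ℂ} (hz : conj z = z) : ((‖z‖ ^ 2 : ℝ) : ℂ) = z ^ 2 := by
  have := Complex.mul_conj' z
  rw [hz] at this
  push_cast
  rw [← this, sq]

lemma exists_cover {K : Type} [Field K] (L : ℕ) (V : Finset K) (hV : V.card ≤ L) :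
    ∃ u : Fin L → K, (∀ l, u l ≠ 0) ∧ ∀ v ∈ V, v ≠ 0 → ∃ l, u l = v := by
  classical
  obtain ⟨f⟩ : Nonempty (V ↪ Fin L) :=
    Function.Embedding.nonempty_of_card_le (by simpa using hV)
  let u₀ : Fin L → K := Function.extend f Subtype.val (fun _ => 1)
  refine ⟨fun l => if u₀ l = 0 then 1 else u₀ l, fun l => ?_, fun v hv h0 => ⟨f ⟨v, hv⟩, ?_⟩⟩
  · by_cases h : u₀ l = 0
    · simp [h]
    · simp [h]
  · have : u₀ (f ⟨v, hv⟩) = v := f.injective.extend_apply _ _ _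
    simp [this, h0]

lemma zpow_sum' {K : Type} [Field K] {x : K} (hx : x ≠ 0) {α : Type} (s : Finset α) (f : α → ℤ) :
    x ^ (∑ a ∈ s, f a) = ∏ a ∈ s, x ^ f a := by
  classical
  induction s using Finset.induction_on with
  | empty => simp
  | insert a s ha ih => rw [Finset.sum_insert ha, Finset.prod_insert ha, zpow_add₀ hx, ih]

/-- Inclusion of the last block of coordinates. -/
def jmap (α : Type) (n : ℕ) : (Fin n → ℤ) →ₗ[ℤ] (α ⊕ Fin n → ℤ) where
  toFun z := Sum.elim 0 z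
  map_add' x y := by funext a; cases a <;> simp
  map_smul' c x := by funext a; cases a <;> simp

/-- Exponent vectors of the terms. -/
def expo (m n L : ℕ) : Fin m ⊕ Fin n → Fin L ⊕ Bool → ((Fin m × Fin L) ⊕ Fin n → ℤ)
  | Sum.inl j, Sum.inl l => Pi.single (Sum.inl (j, l)) 1
  | Sum.inl _, Sum.inr _ => 0
  | Sum.inr _, Sum.inl _ => 0
  | Sum.inr i, Sum.inr true => jmap _ n (Pi.single i 1)
  | Sum.inr i, Sum.inr false => - jmap _ n (Pi.single i 1)

theorem core (m n : ℕ) (hmn : 2 * m < n) : ∃ B N₀ Q : ℕ, 0 < Q ∧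
    ∀ (K : Type) [Field K] [NumberField K] (ι : K →+* ℂ) (M₀ : ℕ) [NeZero M₀]
      [IsCyclotomicExtension {M₀} ℚ K], Q ∣ M₀ → ∀ N : ℕ, N₀ ≤ N → N ∣ M₀ →
      ∀ ζ : K, IsPrimitiveRoot ζ N → ∀ β : Fin m → K, (∀ j, IsIntegral ℤ (β j)) →
      (∀ j, conj (ι (β j)) = ι (β j)) →
      ∑ i : Fin n, (ζ ^ (B ^ (i : ℕ)) + (ζ ^ (B ^ (i : ℕ)))⁻¹) ^ 2 ≠ ∑ j, β j ^ 2 := by
  classical
  obtain ⟨T, hT⟩ : ∃ T, T = 4 * n + 1 := ⟨_, rfl⟩
  obtain ⟨L, hL⟩ : ∃ L, L = 4 * T := ⟨_, rfl⟩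
  obtain ⟨P, hPdef⟩ : ∃ P, P = 8 * T + 2 * (Fintype.card (Fin m ⊕ Fin n) *
    (Fintype.card (Fin L ⊕ Bool) * Fintype.card (Fin L ⊕ Bool))) := ⟨_, rfl⟩
  obtain ⟨Q, hQpos, hQ⟩ : ∃ Q : ℕ, 0 < Q ∧ ∀ p : ℕ, p.Prime → p ≤ P → p ∣ Q :=
    ⟨P.factorial, Nat.factorial_pos P, fun p hp h => (hp.dvd_factorial).mpr h⟩
  let F : Finset ((Fin m × Fin L) ⊕ Fin n → ℤ) := Finset.univ.image
    (fun k : ((Fin m ⊕ Fin n) × (Fin L ⊕ Bool) × (Fin L ⊕ Bool)) ×
        ((Fin m ⊕ Fin n) × (Fin L ⊕ Bool) × (Fin L ⊕ Bool)) =>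
      (expo m n L k.1.1 k.1.2.1 - expo m n L k.1.1 k.1.2.2) -
        (expo m n L k.2.1 k.2.2.1 - expo m n L k.2.1 k.2.2.2))
  obtain ⟨C, hC⟩ := lattice n (jmap (Fin m × Fin L) n) F
  refine ⟨C + 1, Q * (∑ i : Fin n, C * (C + 1) ^ (i : ℕ)) + 1, Q, hQpos, ?_⟩
  intro K _ _ ι M₀ _ _ hQM N hN hNM ζ hζ β hint hreal heq
  have hT0 : 0 < T := by omega
  have hP : 0 < P := by omega
  have hg : (0 : ℝ) < Fintype.card Gal(K/ℚ) := by exact_mod_cast Fintype.card_pos
  have hN0 : N ≠ 0 := by omega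
  have hζ0 : ζ ≠ 0 := hζ.ne_zero hN0
  set η : Fin n → K := fun i => ζ ^ ((C + 1) ^ (i : ℕ)) with hη
  have hηM : ∀ i, η i ^ M₀ = 1 := by
    intro i
    obtain ⟨c, hc⟩ := hNM
    rw [hη, hc, ← pow_mul, show (C + 1) ^ (i : ℕ) * (N * c) = N * ((C + 1) ^ (i : ℕ) * c) by ring,
      pow_mul, hζ.pow_eq_one, one_pow]
  have hη0 : ∀ i, η i ≠ 0 := fun i => pow_ne_zero _ hζ0
  have hβO : ∀ j, β j ∈ O K M₀ := by
    intro j
    obtain ⟨y, hy⟩ := (IsCyclotomicExtension.Rat.isIntegralClosure_adjoin_singleton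
      (IsCyclotomicExtension.zeta_spec M₀ ℚ K)).isIntegral_iff.mp (hint j)
    rw [← hy]
    obtain ⟨y, hy'⟩ := y
    change y ∈ O K M₀
    clear hy
    induction hy' using Algebra.adjoin_induction with
    | mem x hx =>
      rw [Set.mem_singleton_iff] at hx
      rw [hx]
      exact Submodule.subset_span (IsCyclotomicExtension.zeta_spec M₀ ℚ K).pow_eq_one
    | algebraMap r =>
      rw [Algebra.algebraMap_eq_smul_one]
      exact Submodule.smul_mem _ _ (Submodule.subset_span (one_pow M₀))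
    | add x y _ _ hx hy => exact Submodule.add_mem _ hx hy
    | mul x y _ _ hx hy =>
      clear * - hx hy
      induction hy using Submodule.span_induction with
      | mem y hy => exact O_mul_root hx hy
      | zero => simp
      | add y z _ _ hy hz => rw [mul_add]; exact Submodule.add_mem _ hy hz
      | smul a y _ hy => rw [mul_smul_comm]; exact Submodule.smul_mem _ _ hy
  have hxreal : ∀ (σ : Gal(K/ℚ)) i, conj (ι (σ (η i + (η i)⁻¹))) = ι (σ (η i + (η i)⁻¹)) := by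
    intro σ i
    have h3 := mul_conj_root ι (NeZero.ne M₀) (hηM i) σ
    have h4 := (eq_inv_of_mul_eq_one_right h3)
    simp only [map_add, map_inv₀, h4, inv_inv, add_comm]
  have hσ : ∀ σ : Gal(K/ℚ), ∑ j, ‖ι (σ (β j))‖ ^ 2 = ∑ i, ‖ι (σ (η i + (η i)⁻¹))‖ ^ 2 := by
    intro σ
    apply Complex.ofReal_injective
    rw [Complex.ofReal_sum, Complex.ofReal_sum]
    simp only [sq_real (real_conj ι (hβO _) (hreal _) σ), sq_real (hxreal σ _)]
    have := congrArg (fun x => ι (σ x)) heq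
    simp only [map_sum, map_pow] at this
    exact this.symm
  have hht : ∀ j, ht ι (β j) < T * Fintype.card Gal(K/ℚ) := by
    intro j
    have h1 : ∀ σ : Gal(K/ℚ), ‖ι (σ (β j))‖ ^ 2 ≤ 4 * n := by
      intro σ
      have h2 := Finset.single_le_sum (f := fun j => ‖ι (σ (β j))‖ ^ 2)
        (fun a _ => by positivity) (Finset.mem_univ j)
      rw [hσ σ] at h2
      refine h2.trans ?_
      have h3 : ∀ i ∈ (Finset.univ : Finset (Fin n)), ‖ι (σ (η i + (η i)⁻¹))‖ ^ 2 ≤ 4 := by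
        intro i _
        have h4 := norm_root ι (NeZero.ne M₀) (hηM i) σ
        have h5 : ‖ι (σ (η i + (η i)⁻¹))‖ ≤ 2 := by
          rw [map_add, map_add, map_inv₀, map_inv₀]
          refine (norm_add_le _ _).trans ?_
          rw [norm_inv, h4]; norm_num
        nlinarith [norm_nonneg (ι (σ (η i + (η i)⁻¹)))]
      refine (Finset.sum_le_sum h3).trans ?_
      simp [mul_comm]
    have h2 : ht ι (β j) ≤ ∑ _σ : Gal(K/ℚ), (4 * n : ℝ) := Finset.sum_le_sum (fun σ _ => h1 σ)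
    simp only [Finset.sum_const, Finset.card_univ, nsmul_eq_mul] at h2
    have h3 : (T : ℝ) = 4 * n + 1 := by rw [hT]; push_cast; ring
    rw [h3]; nlinarith
  have hX : ∀ j, ∃ u : Fin L → K, ∃ X : Fin L → K, (∀ l, u l ≠ 0) ∧
      (∀ l, X l ∈ WS K M₀ Q {u l}) ∧ β j = ∑ l, X l := by
    intro j
    obtain ⟨t, ht⟩ := id hQM
    obtain ⟨V, hV1, hV2⟩ := sparse (M₀ := M₀) ι hT0 (by omega : 8 * T ≤ P) hQ hQM t
      (by rw [← ht]) (β j) (by rw [← ht]; exact hβO j) (hht j)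
    obtain ⟨u, hu1, hu2⟩ := exists_cover L V (by omega)
    obtain ⟨X, hX1, hX2⟩ := WS_decomp (M₀ := M₀) (Q := Q) Finset.univ u (β := β j) (by
      refine Submodule.span_mono (fun x hx => ?_) hV2
      obtain ⟨l, hl⟩ := hu2 _ hx.2 (pow_ne_zero _ (root_ne_zero hx.1))
      exact And.intro hx.1 ⟨l, by simp, hl⟩)
    exact ⟨u, X, hu1, hX1, hX2⟩
  choose u X hu hXW hXs using hX
  let uu : (Fin m × Fin L) ⊕ Fin n → Kˣ :=
    Sum.elim (fun k => Units.mk0 (u k.1 k.2) (hu _ _))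
      (fun i => Units.mk0 (η i ^ Q) (pow_ne_zero _ (hη0 i)))
  let h : ((Fin m × Fin L) ⊕ Fin n → ℤ) →ₗ[ℤ] Additive Kˣ :=
    Fintype.linearCombination ℤ (fun a => Additive.ofMul (uu a))
  have hj : ∀ z : Fin n → ℤ, ((Additive.toMul (h (jmap _ n z)) : Kˣ) : K) =
      ∏ i, (η i ^ Q) ^ (z i) := by
    intro z
    simp [h, uu, jmap, Fintype.linearCombination_apply, toMul_sum]
  obtain ⟨W, hW1, hW2⟩ := hC (Additive Kˣ) h (by
    intro z hz0 hzC hz
    have h1 := hj z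
    rw [hz] at h1
    have h2 : ∏ i, (η i ^ Q) ^ (z i) = ζ ^ ((Q : ℤ) * ∑ i, z i * ((C : ℤ) + 1) ^ (i : ℕ)) := by
      rw [Finset.mul_sum, zpow_sum' hζ0]
      refine Finset.prod_congr rfl (fun i _ => ?_)
      rw [hη, ← pow_mul, ← zpow_natCast, ← zpow_mul]
      congr 1
      push_cast; ring
    rw [h2] at h1
    have h3 := (hζ.zpow_eq_one_iff_dvd _).mp (by simpa using h1.symm)
    have h4 : |∑ i, z i * ((C : ℤ) + 1) ^ (i : ℕ)| ≤ ∑ i : Fin n, (C : ℤ) * (C + 1) ^ (i : ℕ) := by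
      refine (Finset.abs_sum_le_sum_abs _ _).trans (Finset.sum_le_sum (fun i _ => ?_))
      rw [abs_mul, abs_of_nonneg (by positivity : (0 : ℤ) ≤ ((C : ℤ) + 1) ^ (i : ℕ))]
      exact mul_le_mul_of_nonneg_right (hzC i) (by positivity)
    have hN' : (Q : ℤ) * (∑ i : Fin n, (C : ℤ) * (C + 1) ^ (i : ℕ)) + 1 ≤ N := by exact_mod_cast hN
    have hQ0 : (0 : ℤ) < Q := by exact_mod_cast hQpos
    have h5 := Int.eq_zero_of_abs_lt_dvd h3 (by
      rw [abs_mul, abs_of_pos hQ0]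
      have := mul_le_mul_of_nonneg_left h4 hQ0.le
      omega)
    exact hz0 (digits_zero ((C : ℤ) + 1) n z (fun i => by have := hzC i; omega)
      ((mul_eq_zero.mp h5).resolve_left hQ0.ne')))
  let Y : Fin m ⊕ Fin n → Fin L ⊕ Bool → K := fun a b =>
    match a, b with
    | Sum.inl j, Sum.inl l => X j l
    | Sum.inl _, Sum.inr _ => 0
    | Sum.inr _, Sum.inl _ => 0
    | Sum.inr i, Sum.inr true => η i
    | Sum.inr i, Sum.inr false => (η i)⁻¹
  have hj1 : ∀ i : Fin n, ((Additive.toMul (h (jmap _ n (Pi.single i 1))) : Kˣ) : K) = η i ^ Q := by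
    intro i
    rw [hj, Finset.prod_eq_single i]
    · simp
    · intro b _ hb; simp [Pi.single_eq_of_ne hb]
    · simp
  have hY : ∀ a b, Y a b ∈ WS K M₀ Q {((Additive.toMul (h (expo m n L a b)) : Kˣ) : K)} := by
    rintro (j | i) (l | b)
    · have : ((Additive.toMul (h (expo m n L (Sum.inl j) (Sum.inl l))) : Kˣ) : K) = u j l := by
        simp [h, uu, expo]
      rw [this]; exact hXW j l
    · exact Submodule.zero_mem _
    · exact Submodule.zero_mem _
    · cases b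
      · refine Submodule.subset_span ⟨by simp [Y, hηM], ?_⟩
        simp [Y, expo, hj1]
      · refine Submodule.subset_span ⟨by simp [Y, hηM], ?_⟩
        simp [Y, expo, hj1]
  refine analysis (m := m) (n := n) (by omega) (fun j l => ι (X j l))
    (fun j l => W (Pi.single (Sum.inl (j, l)) 1)) (fun i => ι (η i))
    (fun i => by simpa using norm_root ι (NeZero.ne M₀) (hηM i) 1) (fun s => ?_)
  let Wm : ((Fin m × Fin L) ⊕ Fin n → ℤ) →ₗ[ℤ] ℝ :=
    { toFun := fun e => ∑ i, W e i * s i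
      map_add' := fun x y => by simp [add_mul, Finset.sum_add_distrib]
      map_smul' := fun c x => by
        rw [map_smul]
        simp [Finset.mul_sum, mul_assoc] }
  have hWm : ∀ i, Wm (jmap _ n (Pi.single i 1)) = s i := by
    intro i
    change ∑ i', W (jmap _ n (Pi.single i 1)) i' * s i' = s i
    simp only [hW1]
    rw [Finset.sum_eq_single i]
    · simp
    · intro b _ hb; simp [Pi.single_eq_of_ne hb]
    · simp
  have hd := deform ι hP hQ hQM (by omega) (Sum.elim (fun _ => 1) (fun _ => -1)) Y (expo m n L) h hY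
    (by
      have h1 := hσ 1
      simp only [AlgEquiv.one_apply, hXs] at h1
      simp only [Fintype.sum_sum_type, Fintype.sum_bool, Y, Sum.elim_inl, Sum.elim_inr]
      simp only [Int.cast_one, one_mul, add_zero, Int.cast_neg, neg_mul, Finset.sum_neg_distrib,
        Finset.sum_const_zero, zero_add]
      rw [h1]; ring)
    Wm (by
      intro j l l' j₂ l₂ l₂' h0
      have := hW2 _ (Finset.mem_image_of_mem _ (Finset.mem_univ ((j, l, l'), (j₂, l₂, l₂')))) h0
      change ∑ i, W _ i * s i = 0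
      simp only at this
      rw [this]; simp)
  simp only [Fintype.sum_sum_type, Fintype.sum_bool, Y, Sum.elim_inl, Sum.elim_inr, expo] at hd
  simp only [Int.cast_one, one_mul, add_zero, Int.cast_neg, neg_mul, Finset.sum_neg_distrib,
    Finset.sum_const_zero, zero_add, map_zero, zero_mul, map_neg, hWm, map_inv₀] at hd
  exact eq_of_add_neg_eq_zero hd

end Pool.Agent.Lib.MP_4dc1c3_nt
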