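import Mathlib
import Pool.Agent.Lib.MP_4dc1c3_nt.Core

set_option autoImplicit false

namespace Pool.Agent.Lib.MP_4dc1c3_nt

theorem literal (S : Set ℕ) (hSinf : S.Infinite) (hSpos : ∀ n ∈ S, 0 < n) (K : IntermediateField ℚ ℂ)
    (hK : K = IntermediateField.adjoin ℚ
      {z : ℂ | ∃ n ∈ S, z = Complex.exp (2 * Real.pi * Complex.I / (n : ℂ))}) (m : ℕ) :
    ∃ (k : ℕ) (f : Fin k → ℂ), (∀ i, f i ∈ K ∧ (f i).im = 0 ∧ IsIntegral ℤ (f i)) ∧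
      ∀ g : Fin m → ℂ, (∀ j, g j ∈ K ∧ (g j).im = 0 ∧ IsIntegral ℤ (g j)) →
        ∑ i, f i ^ 2 ≠ ∑ j, g j ^ 2 := by
  subst hK
  obtain ⟨B, N₀, Q, hQ, hcore⟩ := core m (2 * m + 1) (by omega)
  obtain ⟨N, hNS, hN⟩ := hSinf.exists_gt N₀
  have hN0 : N ≠ 0 := by omega
  set G : Set ℂ := {z : ℂ | ∃ n ∈ S, z = Complex.exp (2 * Real.pi * Complex.I / (n : ℂ))} with hG
  obtain ⟨ζ, hζ, hζG⟩ : ∃ ζ : ℂ, IsPrimitiveRoot ζ N ∧ ζ ∈ G :=
    ⟨_, Complex.isPrimitiveRoot_exp N hN0, N, hNS, rfl⟩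
  have hζ0 : ζ ≠ 0 := hζ.ne_zero hN0
  have hcheb : ∀ k : ℕ, ζ ^ k + (ζ ^ k)⁻¹ ∈ IntermediateField.adjoin ℚ G := by
    intro k
    have h1 := pow_mem (IntermediateField.subset_adjoin ℚ _ hζG) k
    exact add_mem h1 (inv_mem h1)
  have hint : ∀ k : ℕ, IsIntegral ℤ (ζ ^ k + (ζ ^ k)⁻¹) := by
    intro k
    have h1 : IsIntegral ℤ ζ := hζ.isIntegral (Nat.pos_of_ne_zero hN0)
    have h2 : IsIntegral ℤ ζ⁻¹ := hζ.inv.isIntegral (Nat.pos_of_ne_zero hN0)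
    rw [← inv_pow]
    exact (h1.pow k).add (h2.pow k)
  have him : ∀ k : ℕ, (ζ ^ k + (ζ ^ k)⁻¹).im = 0 := by
    intro k
    have h1 : ‖ζ ^ k‖ = 1 := by
      rw [norm_pow, Complex.norm_eq_one_of_pow_eq_one hζ.pow_eq_one hN0, one_pow]
    rw [Complex.inv_eq_conj h1, Complex.add_im, Complex.conj_im, add_neg_cancel]
  refine ⟨2 * m + 1, fun i => ζ ^ (B ^ (i : ℕ)) + (ζ ^ (B ^ (i : ℕ)))⁻¹,
    fun i => ⟨hcheb _, him _, hint _⟩, fun g hg hsum => ?_⟩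
  have hmono : ∀ a b : ℕ, a ∣ b → IntermediateField.adjoin ℚ {z : ℂ | z ^ a = 1} ≤
      IntermediateField.adjoin ℚ {z : ℂ | z ^ b = 1} := by
    rintro a b ⟨c, rfl⟩
    refine IntermediateField.adjoin.mono _ _ _ (fun z hz => ?_)
    have hz' : z ^ a = 1 := hz
    change z ^ (a * c) = 1
    rw [pow_mul, hz', one_pow]
  have hD : ∀ x ∈ IntermediateField.adjoin ℚ G,
      ∃ M : ℕ, 0 < M ∧ x ∈ IntermediateField.adjoin ℚ {z : ℂ | z ^ M = 1} := by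
    intro x hx
    induction hx using IntermediateField.adjoin_induction with
    | mem x hx =>
      obtain ⟨n, hn, rfl⟩ := hx
      have hn0 := hSpos n hn
      exact ⟨n, hn0, IntermediateField.subset_adjoin _ _
        (Complex.isPrimitiveRoot_exp n hn0.ne').pow_eq_one⟩
    | algebraMap r => exact ⟨1, one_pos, IntermediateField.algebraMap_mem _ _⟩
    | add x y _ _ hx hy =>
      obtain ⟨a, ha, h2⟩ := hx
      obtain ⟨b, hb, h4⟩ := hy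
      exact ⟨a * b, Nat.mul_pos ha hb,
        add_mem (hmono _ _ (Dvd.intro _ rfl) h2) (hmono _ _ (Dvd.intro_left _ rfl) h4)⟩
    | inv x _ hx =>
      obtain ⟨a, ha, h2⟩ := hx
      exact ⟨a, ha, inv_mem h2⟩
    | mul x y _ _ hx hy =>
      obtain ⟨a, ha, h2⟩ := hx
      obtain ⟨b, hb, h4⟩ := hy
      exact ⟨a * b, Nat.mul_pos ha hb,
        mul_mem (hmono _ _ (Dvd.intro _ rfl) h2) (hmono _ _ (Dvd.intro_left _ rfl) h4)⟩
  choose M hM0 hM using fun j => hD _ (hg j).1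
  obtain ⟨M₀, hM₀⟩ : ∃ M₀, M₀ = Q * N * ∏ j, M j := ⟨_, rfl⟩
  have hM₀pos : M₀ ≠ 0 := by
    rw [hM₀]
    exact Nat.mul_ne_zero (Nat.mul_ne_zero hQ.ne' hN0)
      (Finset.prod_ne_zero_iff.mpr (fun j _ => (hM0 j).ne'))
  have : NeZero M₀ := ⟨hM₀pos⟩
  obtain ⟨ζ₀, hζ₀⟩ : ∃ ζ : ℂ, IsPrimitiveRoot ζ M₀ := ⟨_, Complex.isPrimitiveRoot_exp M₀ hM₀pos⟩
  have halg : IsAlgebraic ℚ ζ₀ :=
    ((hζ₀.isIntegral (Nat.pos_of_ne_zero hM₀pos)).tower_top (A := ℚ)).isAlgebraic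
  have hcyc : IsCyclotomicExtension {M₀} ℚ (IntermediateField.adjoin ℚ {ζ₀}) := by
    change IsCyclotomicExtension {M₀} ℚ (IntermediateField.adjoin ℚ {ζ₀}).toSubalgebra
    rw [IntermediateField.adjoin_simple_toSubalgebra_of_isAlgebraic halg]
    exact hζ₀.adjoin_isCyclotomicExtension ℚ
  have hnf : NumberField (IntermediateField.adjoin ℚ {ζ₀}) :=
    IsCyclotomicExtension.numberField {M₀} ℚ _
  have hle : IntermediateField.adjoin ℚ {z : ℂ | z ^ M₀ = 1} ≤ IntermediateField.adjoin ℚ {ζ₀} := by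
    rw [IntermediateField.adjoin_le_iff]
    intro z hz
    obtain ⟨i, -, rfl⟩ := hζ₀.eq_pow_of_pow_eq_one hz
    exact pow_mem (IntermediateField.mem_adjoin_simple_self ℚ ζ₀) i
  have hQM : Q ∣ M₀ := by rw [hM₀, mul_assoc]; exact Dvd.intro _ rfl
  have hNM : N ∣ M₀ := by rw [hM₀]; exact Dvd.dvd.mul_right (Dvd.intro_left _ rfl) _
  have hgK : ∀ j, g j ∈ IntermediateField.adjoin ℚ {ζ₀} := fun j =>
    hle (hmono _ _ (by
      rw [hM₀]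
      exact Dvd.dvd.mul_left (Finset.dvd_prod_of_mem _ (Finset.mem_univ j)) _) (hM j))
  have hζK : ζ ∈ IntermediateField.adjoin ℚ {ζ₀} :=
    hle (hmono _ _ hNM (IntermediateField.subset_adjoin _ _ hζ.pow_eq_one))
  refine hcore (IntermediateField.adjoin ℚ {ζ₀}) (algebraMap _ ℂ) M₀ hQM N hN.le hNM ⟨ζ, hζK⟩
    (IsPrimitiveRoot.coe_submonoidClass_iff.mp hζ) (fun j => ⟨g j, hgK j⟩)
    (fun j => IntermediateField.coe_isIntegral_iff.mp (hg j).2.2)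
    (fun j => Complex.conj_eq_iff_im.mpr (hg j).2.1) ?_
  apply Subtype.ext
  push_cast
  exact hsum

end Pool.Agent.Lib.MP_4dc1c3_nt
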